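import Mathlib

/-!
MP_dadc3d_co. Orders with at most four neighbours before and after every vertex: definitions.

Theorem (`FF.Main`): if `G` has maximum degree at most 6 and the vertices have an order in which every vertex has at most four neighbours before and at most four neighbours after it, then the
half-edges of `G` have labels as required by `TBS.valid_of_K`, so `G` has a 2-bend drawing in general position.

Overview. `o : V → ℤ` is the order, `Sx v` (`Px v`) the neighbours of `v` after (before) it. `v` is an up vertex if `|Sx v| = 4`, `IsUp v w`: `w = m(v)` is the first neighbour after `v`;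
`v` is a down vertex if `|Px v| = 4`, `IsDn v w`: `w = m(v)` is the last neighbour before it. Not both, as the degree is at most 6.
(1) `Ord`: the order can be chosen such that `m(v)` is not a down vertex for an up vertex `v`, and not an up vertex for a down vertex `v` (`Good`).
(2) Every vertex `x` has a minus node and a plus node. The half `(x, y)` (half-edge at `x` of the edge `xy`) belongs to the plus node if `y` is after `x` and to the minus node if `y` is before `x`,
but for an up vertex `x` the half `(x, m(x))` belongs to the minus node, and for a down vertex to the plus node (`Pl x y`: it belongs to the plus node). So every node has at most three halves.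
(3) `Lab`: there are labels `α x y : Fin 3`, different on the halves of the same node, different on the two halves of an edge, such that for `c v = α v m(v)`:
`c v ≠ c m(v)` if `v` and `m(v)` are both up or both down, and `c v ≠ c v'` if `v ≠ v'` are both up or both down and `m(v) = m(v')`.
(4) `Win`: such labels satisfy the condition (W) of `TBS.valid_of_K`.
For (3): first the colours `c` (`Tok`, greedy), then a list colouring problem for the other halves (`Sys`, `Hole1` - `Hole4`).
-/

set_option autoImplicit false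

namespace Pool.Agent.FF

open Finset

section

variable {V : Type} [Fintype V]

open Classical in
/-- The neighbours of `v` after `v`. -/
noncomputable def Sx (G : SimpleGraph V) (o : V → ℤ) (v : V) : Finset V :=
  univ.filter fun y => G.Adj v y ∧ o v < o y

open Classical in
/-- The neighbours of `v` before `v`. -/
noncomputable def Px (G : SimpleGraph V) (o : V → ℤ) (v : V) : Finset V :=
  univ.filter fun y => G.Adj v y ∧ o y < o v

/-- `v` has four neighbours after it, and `w` is the first of them. -/
def IsUp (G : SimpleGraph V) (o : V → ℤ) (v w : V) : Prop :=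
  (Sx G o v).card = 4 ∧ w ∈ Sx G o v ∧ ∀ y ∈ Sx G o v, o w ≤ o y

/-- `v` has four neighbours before it, and `w` is the last of them. -/
def IsDn (G : SimpleGraph V) (o : V → ℤ) (v w : V) : Prop :=
  (Px G o v).card = 4 ∧ w ∈ Px G o v ∧ ∀ y ∈ Px G o v, o y ≤ o w

/-- A good order. -/
structure Good (G : SimpleGraph V) (o : V → ℤ) : Prop where
  inj : Function.Injective o
  s4 : ∀ v, (Sx G o v).card ≤ 4
  p4 : ∀ v, (Px G o v).card ≤ 4
  d6 : ∀ v, (Sx G o v).card + (Px G o v).card ≤ 6
  up : ∀ v w, IsUp G o v w → (Px G o w).card ≤ 3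
  dn : ∀ v w, IsDn G o v w → (Sx G o w).card ≤ 3

/-- The half `(x, y)` belongs to the plus node of `x`. -/
def Pl (G : SimpleGraph V) (o : V → ℤ) (x y : V) : Prop :=
  (o x < o y ∧ ¬ IsUp G o x y) ∨ IsDn G o x y

theorem mem_Sx {G : SimpleGraph V} {o : V → ℤ} {v y : V} : y ∈ Sx G o v ↔ G.Adj v y ∧ o v < o y := by
  simp [Sx]

theorem mem_Px {G : SimpleGraph V} {o : V → ℤ} {v y : V} : y ∈ Px G o v ↔ G.Adj v y ∧ o y < o v := by
  simp [Px]

theorem Sx_neg (G : SimpleGraph V) (o : V → ℤ) (v : V) : Sx G (fun x => - o x) v = Px G o v := by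
  ext y; simp [Sx, Px]

theorem Px_neg (G : SimpleGraph V) (o : V → ℤ) (v : V) : Px G (fun x => - o x) v = Sx G o v := by
  ext y; simp [Sx, Px]

theorem isUp_neg (G : SimpleGraph V) (o : V → ℤ) (v w : V) :
    IsUp G (fun x => - o x) v w ↔ IsDn G o v w := by
  simp only [IsUp, IsDn, Sx_neg, neg_le_neg_iff]

theorem isDn_neg (G : SimpleGraph V) (o : V → ℤ) (v w : V) :
    IsDn G (fun x => - o x) v w ↔ IsUp G o v w := by
  simp only [IsUp, IsDn, Px_neg, neg_le_neg_iff]

theorem Good.neg {G : SimpleGraph V} {o : V → ℤ} (h : Good G o) : Good G (fun x => - o x) where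
  inj := fun x y hxy => h.inj (neg_injective hxy)
  s4 := fun v => by rw [Sx_neg]; exact h.p4 v
  p4 := fun v => by rw [Px_neg]; exact h.s4 v
  d6 := fun v => by rw [Sx_neg, Px_neg, add_comm]; exact h.d6 v
  up := fun v w hw => by rw [Px_neg]; exact h.dn v w ((isUp_neg G o v w).1 hw)
  dn := fun v w hw => by rw [Sx_neg]; exact h.up v w ((isDn_neg G o v w).1 hw)

theorem exists_isUp {G : SimpleGraph V} {o : V → ℤ} {v : V} (h : (Sx G o v).card = 4) :
    ∃ w, IsUp G o v w := by
  obtain ⟨w, hw, hm⟩ := exists_min_image (Sx G o v) o (card_pos.1 (by omega))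
  exact ⟨w, h, hw, hm⟩

theorem exists_isDn {G : SimpleGraph V} {o : V → ℤ} {v : V} (h : (Px G o v).card = 4) :
    ∃ w, IsDn G o v w := by
  obtain ⟨w, hw, hm⟩ := exists_max_image (Px G o v) o (card_pos.1 (by omega))
  exact ⟨w, h, hw, hm⟩

theorem isUp_unique {G : SimpleGraph V} {o : V → ℤ} (hi : Function.Injective o) {v w w' : V}
    (h : IsUp G o v w) (h' : IsUp G o v w') : w = w' :=
  hi (le_antisymm (h.2.2 _ h'.2.1) (h'.2.2 _ h.2.1))

theorem isDn_unique {G : SimpleGraph V} {o : V → ℤ} (hi : Function.Injective o) {v w w' : V}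
    (h : IsDn G o v w) (h' : IsDn G o v w') : w = w' :=
  hi (le_antisymm (h'.2.2 _ h.2.1) (h.2.2 _ h'.2.1))

theorem Good.not_both {G : SimpleGraph V} {o : V → ℤ} (h : Good G o) {v w w' : V}
    (hu : IsUp G o v w) (hd : IsDn G o v w') : False := by
  have := h.d6 v
  have h1 := hu.1
  have h2 := hd.1
  omega

/-- The token `v` is of type F1: it is the only one with `m(v) = w`, and `w` has two neighbours on the side of `v`. -/
def F1tok (G : SimpleGraph V) (o : V → ℤ) (v : V) : Prop :=
  (∃ w, IsUp G o v w ∧ (∀ v', IsUp G o v' w → v' = v) ∧ (Px G o w).card = 2) ∨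
  (∃ w, IsDn G o v w ∧ (∀ v', IsDn G o v' w → v' = v) ∧ (Sx G o w).card = 2)

/-- The colours of the special halves. -/
structure TokCol (G : SimpleGraph V) (o : V → ℤ) (c : V → Fin 3) : Prop where
  u1 : ∀ v w, IsUp G o v w → (Sx G o w).card = 4 → c v ≠ c w
  d1 : ∀ v w, IsDn G o v w → (Px G o w).card = 4 → c v ≠ c w
  u2 : ∀ v v' w, IsUp G o v w → IsUp G o v' w → v ≠ v' → c v ≠ c v'
  d2 : ∀ v v' w, IsDn G o v w → IsDn G o v' w → v ≠ v' → c v ≠ c v'

/-- The labels. -/
structure LabOk (G : SimpleGraph V) (o : V → ℤ) (c : V → Fin 3) (α : V → V → Fin 3) : Prop where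
  tok : TokCol G o c
  up : ∀ v w, IsUp G o v w → α v w = c v
  dn : ∀ v w, IsDn G o v w → α v w = c v
  edge : ∀ x y, G.Adj x y → α x y ≠ α y x
  node : ∀ x y y', G.Adj x y → G.Adj x y' → y ≠ y' → (Pl G o x y ↔ Pl G o x y') → α x y ≠ α x y'

end

/-! Abstract systems of halves, for the list colouring. -/

/-- `nd h`: the node of the half `h`; `pt h`: the other half of its edge, `none` if this is a special half (then `h` is called a receiver and must not get the colour `r h`);
`Ln n`: the colours allowed at the node `n`. -/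
structure Sys (H N : Type) where
  nd : H → N
  pt : H → Option H
  Ln : N → Finset (Fin 3)
  r : H → Fin 3

namespace Sys

variable {H N : Type} (A : Sys H N)

/-- Two halves which must get different colours. -/
def Adj (g h : H) : Prop := g ≠ h ∧ (A.nd g = A.nd h ∨ A.pt g = some h)

open Classical in
/-- The list of `h`. -/
noncomputable def L (h : H) : Finset (Fin 3) :=
  if A.pt h = none then (A.Ln (A.nd h)).erase (A.r h) else A.Ln (A.nd h)

open Classical in
/-- The halves of a node. -/
noncomputable def fib [Fintype H] (n : N) : Finset H := univ.filter fun h => A.nd h = n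

/-- The general assumptions. -/
structure Ok [Fintype H] : Prop where
  symm : ∀ g h, A.pt g = some h → A.pt h = some g
  pnd : ∀ g h, A.pt g = some h → A.nd g ≠ A.nd h
  two : ∀ h, 2 ≤ (A.Ln (A.nd h)).card
  fib : ∀ n, (A.fib n).card ≤ (A.Ln n).card
  rmem : ∀ h, A.pt h = none → A.r h ∈ A.Ln (A.nd h)
  rne : ∀ g h, g ≠ h → A.pt g = none → A.pt h = none → A.nd g = A.nd h → A.r g ≠ A.r h

/-- The halves outside `Y` can be coloured from their lists, adjacent ones differently. -/
def Col (Y : Finset H) : Prop :=
  ∃ φ : H → Fin 3, (∀ g, g ∉ Y → φ g ∈ A.L g) ∧ ∀ g h, g ∉ Y → h ∉ Y → A.Adj g h → φ g ≠ φ h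

/-- `φ` colours the halves outside `Y` and different from `h` (the hole). -/
structure St (Y : Finset H) (φ : H → Fin 3) (h : H) : Prop where
  nmem : h ∉ Y
  lst : ∀ g, g ∉ Y → g ≠ h → φ g ∈ A.L g
  prop : ∀ g k, g ∉ Y → k ∉ Y → g ≠ h → k ≠ h → A.Adj g k → φ g ≠ φ k

/-- The invariant: with the hole `h`, in node `n`: `f` is allowed at `n`, not used at `n`, it is `r g` for all receivers `g` at `n`, and the colour of all partners of halves at `n`. -/
def Q (f : Fin 3) (φ : H → Fin 3) (h : H) : Prop :=
  f ∈ A.Ln (A.nd h) ∧ (∀ g, A.nd g = A.nd h → g ≠ h → φ g ≠ f) ∧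
  (∀ g, A.nd g = A.nd h → A.pt g = none → A.r g = f) ∧
  (∀ g g', A.nd g = A.nd h → A.pt g = some g' → φ g' = f)

/-- The edge of `g` has a half of colour `f` (the hole `h` has no colour). -/
def Cov (f : Fin 3) (φ : H → Fin 3) (h g : H) : Prop :=
  ∃ g', A.pt g = some g' ∧ ((g ≠ h ∧ φ g = f) ∨ (g' ≠ h ∧ φ g' = f))

/-- Connected by adjacent halves. -/
def Reach (g h : H) : Prop := Relation.ReflTransGen A.Adj g h

/-- `y` is a receiver, and its node has exactly one more half, not a receiver. -/
def F1 [Fintype H] (y : H) : Prop :=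
  A.pt y = none ∧ (A.fib (A.nd y)).card = 2 ∧ ∀ z, A.nd z = A.nd y → z ≠ y → A.pt z ≠ none

theorem mem_fib [Fintype H] {n : N} {h : H} : h ∈ A.fib n ↔ A.nd h = n := by simp [Sys.fib]

end Sys

end Pool.Agent.FF
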