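import Pool.Agent.FF.Defs

/-!
MP_dadc3d_co, FF. Greedy colouring with three colours.

Proof. By induction along `ρ` (for example: for every finite set `T` of vertices which is closed downwards for `ρ` there is a colouring of `T`; or define `c` by well-founded recursion on `ρ`, ranks of a
finite type: strong induction on the number of `y` with `ρ y < ρ x`): every vertex `x` has at most two neighbours `y` with `ρ y < ρ x`, give it a colour different from the colours of these.
A pair `R x y` has `ρ x ≠ ρ y`, so the one of larger rank has got another colour.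
-/

set_option autoImplicit false

namespace Pool.Agent.FF

open Finset

open Classical in
private theorem greedy_aux {V : Type} [Fintype V] (ρ : V → ℤ) (R : V → V → Prop)
    (hs : ∀ x y, R x y → R y x) (hi : ∀ x y, R x y → ρ x ≠ ρ y)
    (h2 : ∀ x, (univ.filter fun y => R x y ∧ ρ y < ρ x).card ≤ 2) (n : ℕ) :
    ∀ T : Finset V, T.card = n → (∀ x ∈ T, ∀ y, ρ y < ρ x → y ∈ T) →
      ∃ c : V → Fin 3, ∀ x ∈ T, ∀ y ∈ T, R x y → c x ≠ c y := by
  induction n with
  | zero =>
    intro T hT _
    rw [card_eq_zero] at hT
    subst hT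
    exact ⟨fun _ => 0, fun x hx => absurd hx (notMem_empty x)⟩
  | succ n ih =>
    intro T hT hd
    obtain ⟨x, hx, hm⟩ := exists_max_image T ρ (card_pos.1 (by omega))
    obtain ⟨c', hc'⟩ := ih (T.erase x) (by rw [card_erase_of_mem hx, hT]; rfl) (by
      intro z hz y hy
      rw [mem_erase] at hz ⊢
      refine ⟨?_, hd z hz.2 y hy⟩
      rintro rfl
      have := hm z hz.2
      omega)
    obtain ⟨k, hk⟩ : ∃ k : Fin 3, k ∉ (univ.filter fun y => R x y ∧ ρ y < ρ x).image c' := by
      by_contra hall
      push Not at hall
      have h3 : (univ : Finset (Fin 3)) ⊆ (univ.filter fun y => R x y ∧ ρ y < ρ x).image c' :=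
        fun k _ => hall k
      have h4 := card_le_card h3
      have h5 := (card_image_le (s := univ.filter fun y => R x y ∧ ρ y < ρ x) (f := c')).trans (h2 x)
      rw [card_univ, Fintype.card_fin] at h4
      omega
    have key : ∀ b ∈ T, b ≠ x → R x b → c' b ≠ k := by
      intro b hb hbx hR he
      apply hk
      rw [mem_image]
      refine ⟨b, ?_, he⟩
      rw [mem_filter]
      exact ⟨mem_univ _, hR, lt_of_le_of_ne (hm b hb) (fun h => hi x b hR h.symm)⟩
    refine ⟨Function.update c' x k, fun a ha b hb hR => ?_⟩
    by_cases hax : a = x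
    · subst hax
      by_cases hba : b = a
      · subst hba
        exact absurd rfl (hi b b hR)
      · rw [Function.update_self, Function.update_of_ne hba]
        exact (key b hb hba hR).symm
    · by_cases hbx : b = x
      · subst hbx
        rw [Function.update_self, Function.update_of_ne hax]
        exact key a ha hax (hs a b hR)
      · rw [Function.update_of_ne hax, Function.update_of_ne hbx]
        exact hc' a (mem_erase.2 ⟨hax, ha⟩) b (mem_erase.2 ⟨hbx, hb⟩) hR

open Classical in
theorem greedy {V : Type} [Fintype V] (ρ : V → ℤ) (R : V → V → Prop)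
    (hs : ∀ x y, R x y → R y x) (hi : ∀ x y, R x y → ρ x ≠ ρ y)
    (h2 : ∀ x, (univ.filter fun y => R x y ∧ ρ y < ρ x).card ≤ 2) :
    ∃ c : V → Fin 3, ∀ x y, R x y → c x ≠ c y := by
  obtain ⟨c, hc⟩ := greedy_aux ρ R hs hi h2 _ univ rfl (fun _ _ y _ => mem_univ y)
  exact ⟨c, fun x y hR => hc x (mem_univ x) y (mem_univ y) hR⟩

end Pool.Agent.FF
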