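import Pool.Agent.FF.Defs

/-!
MP_dadc3d_co, FF. List colouring of a system of halves: a hole can be moved.

`card_adj_le`: the neighbours of `h` are the other halves of its node (at most `|Ln n| - 1` by `Ok.fib`) and its partner if it has one. If `pt h = none` then `|L h| = |Ln n| - 1` by `Ok.rmem`; otherwise `|L h| = |Ln n|`
and there is one more neighbour.
`exists_st`: choose a set `X` of minimal size with `Col X` (`univ` is one). `X` is not empty; let `h ∈ X`, `Y = X.erase h`, so not `Col Y`, and the colouring of the halves outside `X = insert h Y` is a state.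
`st_facts`: every colour `x ∈ L h` is used by a neighbour `g ∉ Y` of `h`, otherwise `update φ h x` shows `Col Y`. So the number of the neighbours outside `Y` is at least `|L h|`; by `card_adj_le` it is the number of all
neighbours: no neighbour is in `Y`, the colours of the neighbours are different and form the list `L h`.
`st_move`: `h` gets the colour of `g`, which is in `L h`, and different from the colours of the other neighbours of `h`; now `g` is the hole. (`g ∉ Y` by `st_facts`, `g ≠ h`.)
`st_full`: if `pt h ≠ none` then `|Ln n| = |L h|` is the number of neighbours, `(|fib n| - 1) + 1` (the partner is in another node); if `pt h = none` then `|Ln n| - 1 = |L h| = |fib n| - 1`.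
-/

set_option autoImplicit false

namespace Pool.Agent.FF.Sys

open Finset

variable {H N : Type} [Fintype H] {A : Sys H N}

theorem adj_symm (hA : A.Ok) {g h : H} (hg : A.Adj g h) : A.Adj h g := by
  refine ⟨hg.1.symm, ?_⟩
  rcases hg.2 with e | e
  · exact Or.inl e.symm
  · exact Or.inr (hA.symm _ _ e)

open Classical in
private theorem adj_none (h : H) (hn : A.pt h = none) :
    (univ.filter fun g => A.Adj h g) = (A.fib (A.nd h)).erase h := by
  ext g
  rw [mem_filter, mem_erase, mem_fib]
  constructor
  · rintro ⟨-, h1, h2 | h2⟩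
    · exact ⟨h1.symm, h2.symm⟩
    · rw [hn] at h2
      exact absurd h2 (by simp)
  · rintro ⟨h1, h2⟩
    exact ⟨mem_univ _, h1.symm, Or.inl h2.symm⟩

open Classical in
private theorem adj_some (hA : A.Ok) (h k : H) (hn : A.pt h = some k) :
    (univ.filter fun g => A.Adj h g) = insert k ((A.fib (A.nd h)).erase h) := by
  ext g
  rw [mem_filter, mem_insert, mem_erase, mem_fib]
  constructor
  · rintro ⟨-, h1, h2 | h2⟩
    · exact Or.inr ⟨h1.symm, h2.symm⟩
    · rw [hn] at h2
      exact Or.inl (Option.some.inj h2).symm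
  · rintro (rfl | ⟨h1, h2⟩)
    · refine ⟨mem_univ _, ?_, Or.inr hn⟩
      rintro rfl
      exact hA.pnd _ _ hn rfl
    · exact ⟨mem_univ _, h1.symm, Or.inl h2.symm⟩

private theorem self_mem (h : H) : h ∈ A.fib (A.nd h) := A.mem_fib.2 rfl

private theorem fib_pos (h : H) : 0 < (A.fib (A.nd h)).card := card_pos.2 ⟨h, self_mem h⟩

private theorem L_none {h : H} (hA : A.Ok) (hn : A.pt h = none) : (A.L h).card = (A.Ln (A.nd h)).card - 1 := by
  unfold Sys.L
  rw [if_pos hn, card_erase_of_mem (hA.rmem h hn)]

omit [Fintype H] in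
private theorem L_some {h k : H} (hn : A.pt h = some k) : (A.L h).card = (A.Ln (A.nd h)).card := by
  unfold Sys.L
  rw [if_neg (by rw [hn]; simp)]

open Classical in
theorem card_adj_le (hA : A.Ok) (h : H) : (univ.filter fun g => A.Adj h g).card ≤ (A.L h).card := by
  have h1 := hA.fib (A.nd h)
  rcases hn : A.pt h with _ | k
  · rw [adj_none h hn, card_erase_of_mem (self_mem h), L_none hA hn]
    omega
  · rw [adj_some hA h k hn, L_some hn]
    refine (card_insert_le _ _).trans ?_
    rw [card_erase_of_mem (self_mem h)]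
    have := fib_pos (A := A) h
    omega

theorem exists_st (hc : ¬ A.Col ∅) : ∃ (Y : Finset H) (φ : H → Fin 3) (h : H), ¬ A.Col Y ∧ A.St Y φ h := by
  classical
  have h0 : (univ.filter fun X : Finset H => A.Col X).Nonempty :=
    ⟨univ, mem_filter.2 ⟨mem_univ _, fun _ => 0, fun g hg => absurd (mem_univ g) hg,
      fun g _ hg => absurd (mem_univ g) hg⟩⟩
  obtain ⟨X, hX, hmin⟩ := exists_min_image _ (fun X : Finset H => X.card) h0
  have hXc := (mem_filter.1 hX).2
  have hne : X.Nonempty := by
    rw [nonempty_iff_ne_empty]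
    rintro rfl
    exact hc hXc
  obtain ⟨h, hh⟩ := hne
  obtain ⟨φ, h1, h2⟩ := hXc
  have hsub : ∀ g, g ∉ X.erase h → g ≠ h → g ∉ X := fun g hg hgh hgX => hg (mem_erase.2 ⟨hgh, hgX⟩)
  refine ⟨X.erase h, φ, h, ?_, notMem_erase h X, fun g hg hgh => h1 g (hsub g hg hgh), fun g k hg hk hgh hkh =>
    h2 g k (hsub g hg hgh) (hsub k hk hkh)⟩
  intro hcol
  have h3 := hmin (X.erase h) (mem_filter.2 ⟨mem_univ _, hcol⟩)
  rw [card_erase_of_mem hh] at h3
  have : 0 < X.card := card_pos.2 ⟨h, hh⟩
  omega

/-- Every colour of the list of the hole is used by a neighbour outside `Y`. -/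
private theorem st_used (hA : A.Ok) {Y : Finset H} (hY : ¬ A.Col Y) {φ : H → Fin 3} {h : H} (hs : A.St Y φ h)
    {x : Fin 3} (hx : x ∈ A.L h) : ∃ g, A.Adj h g ∧ g ∉ Y ∧ φ g = x := by
  classical
  by_contra hcon
  push Not at hcon
  refine hY ⟨Function.update φ h x, fun g hg => ?_, fun g k hg hk hgk => ?_⟩
  · by_cases e : g = h
    · subst e
      rw [Function.update_self]
      exact hx
    · rw [Function.update_of_ne e]
      exact hs.lst g hg e
  · by_cases e : g = h
    · subst e
      have e2 : k ≠ g := hgk.1.symm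
      rw [Function.update_self, Function.update_of_ne e2]
      exact (hcon k hgk hk).symm
    · rw [Function.update_of_ne e]
      by_cases e2 : k = h
      · subst e2
        rw [Function.update_self]
        exact hcon g (adj_symm hA hgk) hg
      · rw [Function.update_of_ne e2]
        exact hs.prop g k hg hk e e2 hgk

open Classical in
private theorem st_key (hA : A.Ok) {Y : Finset H} (hY : ¬ A.Col Y) {φ : H → Fin 3} {h : H} (hs : A.St Y φ h) :
    (∀ g, A.Adj h g → g ∉ Y) ∧ Set.InjOn φ (univ.filter fun g => A.Adj h g : Finset H) ∧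
      (univ.filter fun g => A.Adj h g).image φ = A.L h := by
  have h1 : (univ.filter fun g => A.Adj h g ∧ g ∉ Y) ⊆ univ.filter fun g => A.Adj h g := by
    intro g hg
    exact mem_filter.2 ⟨mem_univ _, (mem_filter.1 hg).2.1⟩
  have h2 : A.L h ⊆ (univ.filter fun g => A.Adj h g ∧ g ∉ Y).image φ := by
    intro x hx
    obtain ⟨g, hg1, hg2, hg3⟩ := st_used hA hY hs hx
    exact mem_image.2 ⟨g, mem_filter.2 ⟨mem_univ _, hg1, hg2⟩, hg3⟩
  have h3 := card_le_card h2
  have h4 : ((univ.filter fun g => A.Adj h g ∧ g ∉ Y).image φ).card ≤ (univ.filter fun g => A.Adj h g ∧ g ∉ Y).card :=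
    card_image_le
  have h5 := card_le_card h1
  have h6 := card_adj_le hA h
  have h7 : (univ.filter fun g => A.Adj h g ∧ g ∉ Y) = univ.filter fun g => A.Adj h g :=
    eq_of_subset_of_card_le h1 (by omega)
  rw [h7] at h2 h3 h4
  refine ⟨fun g hg => ?_, ?_, ?_⟩
  · have h8 : g ∈ univ.filter fun g => A.Adj h g ∧ g ∉ Y := by
      rw [h7]
      exact mem_filter.2 ⟨mem_univ _, hg⟩
    exact (mem_filter.1 h8).2.2
  · exact card_image_iff.1 (by omega)
  · exact (eq_of_subset_of_card_le h2 (by omega)).symm

theorem st_facts (hA : A.Ok) {Y : Finset H} (hY : ¬ A.Col Y) {φ : H → Fin 3} {h : H} (hs : A.St Y φ h) :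
    (∀ g, A.Adj h g → g ∉ Y) ∧ (∀ g k, A.Adj h g → A.Adj h k → φ g = φ k → g = k) ∧
      ∀ x, x ∈ A.L h ↔ ∃ g, A.Adj h g ∧ φ g = x := by
  classical
  obtain ⟨h1, h2, h3⟩ := st_key hA hY hs
  refine ⟨h1, fun g k hg hk he => ?_, fun x => ?_⟩
  · exact h2 (by simpa using hg) (by simpa using hk) he
  · rw [← h3, mem_image]
    constructor
    · rintro ⟨g, hg, he⟩
      exact ⟨g, (mem_filter.1 hg).2, he⟩
    · rintro ⟨g, hg, he⟩
      exact ⟨g, mem_filter.2 ⟨mem_univ _, hg⟩, he⟩

open Classical in
theorem st_move (hA : A.Ok) {Y : Finset H} (hY : ¬ A.Col Y) {φ : H → Fin 3} {h g : H} (hs : A.St Y φ h)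
    (hg : A.Adj h g) : A.St Y (Function.update φ h (φ g)) g := by
  obtain ⟨h1, h2, h3⟩ := st_facts hA hY hs
  refine ⟨h1 g hg, fun k hk hkg => ?_, fun k l hk hl hkg hlg hkl => ?_⟩
  · by_cases e : k = h
    · subst e
      rw [Function.update_self]
      exact (h3 _).2 ⟨g, hg, rfl⟩
    · rw [Function.update_of_ne e]
      exact hs.lst k hk e
  · by_cases e : k = h
    · subst e
      have e2 : l ≠ k := hkl.1.symm
      rw [Function.update_self, Function.update_of_ne e2]
      intro he
      exact hlg (h2 g l hg hkl he).symm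
    · rw [Function.update_of_ne e]
      by_cases e2 : l = h
      · subst e2
        rw [Function.update_self]
        intro he
        exact hkg (h2 k g (adj_symm hA hkl) hg he)
      · rw [Function.update_of_ne e2]
        exact hs.prop k l hk hl e e2 hkl

open Classical in
theorem st_full (hA : A.Ok) {Y : Finset H} (hY : ¬ A.Col Y) {φ : H → Fin 3} {h : H} (hs : A.St Y φ h) :
    (A.fib (A.nd h)).card = (A.Ln (A.nd h)).card := by
  obtain ⟨h1, h2, h3⟩ := st_key hA hY hs
  have h4 : (univ.filter fun g => A.Adj h g).card = (A.L h).card := by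
    rw [← h3, card_image_of_injOn h2]
  have h5 := fib_pos (A := A) h
  have h6 := hA.two h
  rcases hn : A.pt h with _ | k
  · rw [adj_none h hn, card_erase_of_mem (self_mem h), L_none hA hn] at h4
    omega
  · have h7 : k ∉ (A.fib (A.nd h)).erase h := by
      intro hk
      exact hA.pnd _ _ hn (A.mem_fib.1 (mem_erase.1 hk).2).symm
    rw [adj_some hA h k hn, L_some hn, card_insert_of_notMem h7, card_erase_of_mem (self_mem h)] at h4
    omega

end Pool.Agent.FF.Sys
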