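import Pool.Agent.FF.Hole1

/-!
MP_dadc3d_co, FF. List colouring of a system of halves: the invariant `Q`.

`exists_Q`. Let `n = nd h`. First let `h` have a partner `h'`; `f = φ h'`. By `st_facts` for `h` (list `Ln n`): `f ∈ Ln n`, and the other halves `g` of the node have colours different from `f`, they and `f` are
all of `Ln n`. Let `g ≠ h` be a half of the node. Move the hole to `g` (`st_move`): `h` gets the colour `φ g`. By `st_facts` for `g`: if `g` has a partner `g'` (in another node, `φ g'` is
unchanged): `Ln n` is the disjoint union of the set `R` of the colours of the halves other than `g` (before the move: other than `h`; the same set of colours) and `{φ g'}`, so `φ g' = f`. If `g` is a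
receiver: `Ln n` without `r g` is `R`, and `r g ∈ Ln n`, `f ∈ Ln n`, `f ∉ R`, so `r g = f`. And for `g = h` the partner is `h'`, `φ h' = f`. So `Q f φ h`.
Now let `h` be a receiver, `f = r h`. The node has another half by `st_full` and `Ok.two`. Not all others are receivers: for a receiver `g` the argument above gives that both `Ln n` without `r h`
and `Ln n` without `r g` are the set `R`, so `r g = r h` against `Ok.rne`. So some `g` has a partner, after moving the hole to `g` there is `Q f' φ' g` by the first case, `f' = r h`, and `Q f' φ h` follows: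
`Q` for `h` and for `g` in the same node are about the same things except the colours of halves of the node: all different from `f'`; and `φ g = φ' h ≠ f'`.
`Q_move`. If `g` is in the node of `h`: direct, as in the last lines (`φ' h = φ g ≠ f`; partners are in other nodes, so their colours are unchanged and they are not `h`). If `g` is the partner of `h`: `exists_Q` for the new
state gives `f'`, and `f' = φ' h = φ g = f` by the last clauses (`h` is the partner of `g`).
`reach_cov`: induction on the path (`Relation.ReflTransGen`), `st_move`, `Q_move`, `cov_move`.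
`cov_move`. In a node: the colours which change are those of `h` (before: hole, after `φ g ≠ f`) and `g` (before `φ g ≠ f`, after: hole), so the set of the halves of colour `f` is the same. To the partner `g`: `φ g = f`, before: `g` has
colour `f`, `h` is the hole; after: `h` has colour `f`, `g` is the hole; so the edge `{h, g}` has a half of colour `f` before and after, the other halves are unchanged.
`cov_all`: move the hole to `k` (`reach_cov`); then the partner of `k` has colour `f` by `Q` (it is not `k`), so `Cov f ψ k k`.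
-/

set_option autoImplicit false

namespace Pool.Agent.FF.Sys

open Finset

variable {H N : Type} [Fintype H] {A : Sys H N}

open Classical in
/-- The colour `f` is used by no half of the node: so it is used by a neighbour of `g` in another node. -/
private theorem free_aux (hA : A.Ok) {Y : Finset H} (hY : ¬ A.Col Y) {φ : H → Fin 3} {h g : H}
    (hs : A.St Y φ h) {f : Fin 3} (hb : ∀ k, A.nd k = A.nd h → k ≠ h → φ k ≠ f)
    (hn : A.nd g = A.nd h) (hgh : g ≠ h) (hf : f ∈ A.L g) :
    ∃ k, A.pt g = some k ∧ φ k = f := by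
  have hadj : A.Adj h g := ⟨hgh.symm, Or.inl hn.symm⟩
  have hs' := st_move hA hY hs hadj
  obtain ⟨k, ⟨hk1, hk2⟩, hk3⟩ := ((st_facts hA hY hs').2.2 f).1 hf
  rcases hk2 with hk2 | hk2
  · exfalso
    by_cases hkh : k = h
    · subst hkh
      rw [Function.update_self] at hk3
      exact hb g hn hgh hk3
    · rw [Function.update_of_ne hkh] at hk3
      exact hb k (hk2.symm.trans hn) hkh hk3
  · refine ⟨k, hk2, ?_⟩
    have hkh : k ≠ h := by
      intro e
      subst e
      exact hA.pnd _ _ hk2 hn
    rwa [Function.update_of_ne hkh] at hk3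

theorem exists_Q (hA : A.Ok) {Y : Finset H} (hY : ¬ A.Col Y) {φ : H → Fin 3} {h : H} (hs : A.St Y φ h) :
    ∃ f, A.Q f φ h := by
  have hfacts := st_facts hA hY hs
  -- the colour and its first properties
  obtain ⟨f, ha, hb, hc, hd⟩ : ∃ f : Fin 3, f ∈ A.Ln (A.nd h) ∧
      (∀ g, A.nd g = A.nd h → g ≠ h → φ g ≠ f) ∧ (A.pt h = none → A.r h = f) ∧
      (∀ g', A.pt h = some g' → φ g' = f) := by
    rcases hp : A.pt h with _ | h'
    · refine ⟨A.r h, hA.rmem h hp, ?_, fun _ => rfl, ?_⟩
      · intro g hn hgh e
        have h1 : φ g ∈ A.L h := (hfacts.2.2 (φ g)).2 ⟨g, ⟨hgh.symm, Or.inl hn.symm⟩, rfl⟩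
        unfold Sys.L at h1
        rw [if_pos hp, Finset.mem_erase] at h1
        exact h1.1 e
      · intro g' hg'
        exact absurd hg' (by simp)
    · have hne : A.nd h ≠ A.nd h' := hA.pnd _ _ hp
      have hadj : A.Adj h h' := ⟨fun e => hne (by rw [← e]), Or.inr hp⟩
      refine ⟨φ h', ?_, ?_, ?_, ?_⟩
      · have h1 : φ h' ∈ A.L h := (hfacts.2.2 (φ h')).2 ⟨h', hadj, rfl⟩
        unfold Sys.L at h1
        rwa [if_neg (by rw [hp]; simp)] at h1
      · intro g hn hgh e
        have h1 := hfacts.2.1 g h' ⟨hgh.symm, Or.inl hn.symm⟩ hadj e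
        exact hne (by rw [← h1, hn])
      · intro e
        exact absurd e (by simp)
      · intro g' hg'
        rw [Option.some.injEq] at hg'
        rw [hg']
  refine ⟨f, ha, hb, ?_, ?_⟩
  · intro g hn hg
    by_cases hgh : g = h
    · subst hgh
      exact hc hg
    · by_contra hr
      have hf : f ∈ A.L g := by
        unfold Sys.L
        rw [if_pos hg, Finset.mem_erase, hn]
        exact ⟨fun e => hr e.symm, ha⟩
      obtain ⟨k, hk, -⟩ := free_aux hA hY hs hb hn hgh hf
      rw [hg] at hk
      exact absurd hk (by simp)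
  · intro g g' hn hg
    by_cases hgh : g = h
    · subst hgh
      exact hd g' hg
    · have hf : f ∈ A.L g := by
        unfold Sys.L
        rw [if_neg (by rw [hg]; simp), hn]
        exact ha
      obtain ⟨k, hk, hk2⟩ := free_aux hA hY hs hb hn hgh hf
      rw [hg, Option.some.injEq] at hk
      rw [hk]
      exact hk2

open Classical in
theorem Q_move (hA : A.Ok) {Y : Finset H} (hY : ¬ A.Col Y) {φ : H → Fin 3} {h g : H} (hs : A.St Y φ h) {f : Fin 3}
    (hq : A.Q f φ h) (hg : A.Adj h g) : A.Q f (Function.update φ h (φ g)) g := by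
  obtain ⟨hne, hg2⟩ := hg
  rcases hg2 with hn | hp
  · obtain ⟨qa, qb, qc, qd⟩ := hq
    refine ⟨by rw [← hn]; exact qa, ?_, ?_, ?_⟩
    · intro k hk hkg
      by_cases hkh : k = h
      · subst hkh
        rw [Function.update_self]
        exact qb g hn.symm hne.symm
      · rw [Function.update_of_ne hkh]
        exact qb k (hk.trans hn.symm) hkh
    · intro k hk hk2
      exact qc k (hk.trans hn.symm) hk2
    · intro k k' hk hk2
      have hkh : k' ≠ h := by
        intro e
        subst e
        exact hA.pnd _ _ hk2 (hk.trans hn.symm)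
      rw [Function.update_of_ne hkh]
      exact qd k k' (hk.trans hn.symm) hk2
  · obtain ⟨f', hf'⟩ := exists_Q hA hY (st_move hA hY hs ⟨hne, Or.inr hp⟩)
    have h1 := hf'.2.2.2 g h rfl (hA.symm _ _ hp)
    rw [Function.update_self] at h1
    have h2 := hq.2.2.2 h g rfl hp
    rw [h2] at h1
    rw [h1]
    exact hf'

open Classical in
theorem cov_move (hA : A.Ok) {φ : H → Fin 3} {h g : H} {f : Fin 3} (hq : A.Q f φ h) (hg : A.Adj h g) (k : H) :
    A.Cov f φ h k ↔ A.Cov f (Function.update φ h (φ g)) g k := by
  obtain ⟨hne, hg2⟩ := hg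
  have key : ∀ x, x ≠ h → x ≠ g →
      ((x ≠ h ∧ φ x = f) ↔ (x ≠ g ∧ Function.update φ h (φ g) x = f)) := by
    intro x hxh hxg
    rw [Function.update_of_ne hxh]
    exact ⟨fun e => ⟨hxg, e.2⟩, fun e => ⟨hxh, e.2⟩⟩
  rcases hg2 with hn | hp
  · have hgf : φ g ≠ f := hq.2.1 g hn.symm hne.symm
    have key2 : ∀ x, ((x ≠ h ∧ φ x = f) ↔ (x ≠ g ∧ Function.update φ h (φ g) x = f)) := by
      intro x
      by_cases hxh : x = h
      · subst hxh
        rw [Function.update_self]
        exact ⟨fun e => absurd rfl e.1, fun e => absurd e.2 hgf⟩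
      · by_cases hxg : x = g
        · subst hxg
          exact ⟨fun e => absurd e.2 hgf, fun e => absurd rfl e.1⟩
        · exact key x hxh hxg
    unfold Sys.Cov
    constructor
    · rintro ⟨k', h1, h2⟩
      exact ⟨k', h1, h2.imp (key2 k).1 (key2 k').1⟩
    · rintro ⟨k', h1, h2⟩
      exact ⟨k', h1, h2.imp (key2 k).2 (key2 k').2⟩
  · have hgf : φ g = f := hq.2.2.2 h g rfl hp
    have hpg : A.pt g = some h := hA.symm _ _ hp
    have hcg : g ≠ h ∧ φ g = f := ⟨hne.symm, hgf⟩
    have hch : h ≠ g ∧ Function.update φ h (φ g) h = f := ⟨hne, by rw [Function.update_self, hgf]⟩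
    unfold Sys.Cov
    by_cases hkh : k = h
    · subst hkh
      exact ⟨fun _ => ⟨g, hp, Or.inl hch⟩, fun _ => ⟨g, hp, Or.inr hcg⟩⟩
    · by_cases hkg : k = g
      · subst hkg
        exact ⟨fun _ => ⟨h, hpg, Or.inr hch⟩, fun _ => ⟨h, hpg, Or.inl hcg⟩⟩
      · have hk' : ∀ k', A.pt k = some k' → k' ≠ h ∧ k' ≠ g := by
          intro k' h1
          have h2 := hA.symm _ _ h1
          constructor
          · intro e
            rw [e, hp, Option.some.injEq] at h2
            exact hkg h2.symm
          · intro e
            rw [e, hpg, Option.some.injEq] at h2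
            exact hkh h2.symm
        constructor
        · rintro ⟨k', h1, h2⟩
          exact ⟨k', h1, h2.imp (key k hkh hkg).1 (key k' (hk' k' h1).1 (hk' k' h1).2).1⟩
        · rintro ⟨k', h1, h2⟩
          exact ⟨k', h1, h2.imp (key k hkh hkg).2 (key k' (hk' k' h1).1 (hk' k' h1).2).2⟩

theorem reach_cov (hA : A.Ok) {Y : Finset H} (hY : ¬ A.Col Y) {φ : H → Fin 3} {h g : H} (hs : A.St Y φ h) {f : Fin 3}
    (hq : A.Q f φ h) (hr : A.Reach h g) :
    ∃ ψ, A.St Y ψ g ∧ A.Q f ψ g ∧ ∀ k, A.Cov f φ h k ↔ A.Cov f ψ g k := by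
  classical
  unfold Sys.Reach at hr
  induction hr with
  | refl => exact ⟨φ, hs, hq, fun k => Iff.rfl⟩
  | tail _ hbc ih =>
    obtain ⟨ψ, s, q, c⟩ := ih
    exact ⟨_, st_move hA hY s hbc, Q_move hA hY s q hbc, fun k => (c k).trans (cov_move hA q hbc k)⟩

theorem cov_all (hA : A.Ok) {Y : Finset H} (hY : ¬ A.Col Y) {φ : H → Fin 3} {h k : H} (hs : A.St Y φ h) {f : Fin 3}
    (hq : A.Q f φ h) (hr : A.Reach h k) (hk : A.pt k ≠ none) : A.Cov f φ h k := by
  obtain ⟨ψ, -, q, c⟩ := reach_cov hA hY hs hq hr
  obtain ⟨k', hk'⟩ := Option.ne_none_iff_exists'.1 hk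
  refine (c k).2 ⟨k', hk', Or.inr ⟨?_, q.2.2.2 k k' rfl hk'⟩⟩
  intro e
  exact hA.pnd _ _ hk' (by rw [e])

end Pool.Agent.FF.Sys
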