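import Pool.Agent.FF.Hole2

/-!
MP_dadc3d_co, FF. List colouring of a system of halves: counting.

Let `C` be the set of the halves `g` with `Reach h g` (`Reach` is an equivalence relation by `adj_symm`; the other halves of the node of `g ∈ C` and the partner of `g` are in `C`). For every `g ∈ C`, by `reach_cov` the hole can be moved to `g`, so:
`g ∉ Y`; the node `n` of `g` has `|fib n| = |Ln n| ≥ 2` (`st_full`, `Ok.two`), `f ∈ Ln n`, and the receivers in the node have `r = f` (`Q`), so there is at most one (`Ok.rne`).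
Work with the colouring `φ`. `Fh` = the halves in `C` different from `h` with colour `f`. A receiver is not in `Fh` (its colour is in its list, which does not contain `r = f`).
(i) `|C'| = 2 |Fh|`, where `C'` is the set of the halves in `C` with a partner: by `cov_all` every `g ∈ C'` is in `Fh` or its partner is, not both (they are adjacent, `St.prop`). So `C'` is the disjoint union of `Fh` and of the partners of
the members of `Fh` (`pt` is injective by `Ok.symm`).
(ii) `|Fh| + 1 =` the number of the nodes of `C` (`(C.image A.nd).card`): no half in the node of `h` is in `Fh` (`Q`). Every other node `n` of `C` has exactly one half in `Fh`: two would be adjacent; the colours of its `|Ln n|` halves are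
different members of `Ln n` (`L g ⊆ Ln n`), so all of `Ln n`, and `f ∈ Ln n`.
(iii) Let `ord n` be the number of the halves with a partner in the node `n`: at least `|fib n| - 1 ≥ 1`. The sum of `ord n` over the nodes of `C` is `|C'| = 2 (#nodes) - 2` by (i), (ii). So at least two nodes have `ord n = 1` (otherwise the
sum is at least `2 (#nodes) - 1`). Such a node has `|fib n| ≤ ord n + 1 = 2`, so `|fib n| = 2` and it has exactly one receiver `y`, and `F1 y`.
`col`: otherwise `exists_st`, `exists_Q`, `two_F1` give `y1`, `y2`, both `F1`; `hT` gives `z1`, `z2` reachable with `r z1 ≠ r z2`; but both are `f`.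
-/

set_option autoImplicit false

namespace Pool.Agent.FF.Sys

open Finset

variable {H N : Type} [Fintype H] {A : Sys H N}

private theorem reach_symm (hA : A.Ok) {g h : H} (hr : A.Reach g h) : A.Reach h g := by
  unfold Sys.Reach at hr ⊢
  induction hr with
  | refl => exact Relation.ReflTransGen.refl
  | tail _ hbc ih => exact Relation.ReflTransGen.head (adj_symm hA hbc) ih

theorem two_F1 (hA : A.Ok) {Y : Finset H} (hY : ¬ A.Col Y) {φ : H → Fin 3} {h : H} (hs : A.St Y φ h) {f : Fin 3}
    (hq : A.Q f φ h) :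
    (∃ y1 y2, y1 ≠ y2 ∧ A.F1 y1 ∧ A.F1 y2 ∧ A.Reach h y1 ∧ A.Reach h y2) ∧
      ∀ z, A.Reach h z → A.pt z = none → A.r z = f := by
  classical
  have key : ∀ g, A.Reach h g → g ∉ Y ∧ (A.fib (A.nd g)).card = (A.Ln (A.nd g)).card ∧ f ∈ A.Ln (A.nd g) ∧
      (∀ k, A.nd k = A.nd g → A.pt k = none → A.r k = f) := by
    intro g hg
    obtain ⟨ψ, hψ, hq', -⟩ := reach_cov hA hY hs hq hg
    exact ⟨hψ.nmem, st_full hA hY hψ, hq'.1, hq'.2.2.1⟩
  have hnode : ∀ g k, A.Reach h g → A.nd k = A.nd g → A.Reach h k := by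
    intro g k hg hk
    by_cases e : g = k
    · rw [← e]
      exact hg
    · exact Relation.ReflTransGen.tail hg ⟨e, Or.inl hk.symm⟩
  have hpart : ∀ g k, A.Reach h g → A.pt g = some k → A.Reach h k := by
    intro g k hg hk
    refine Relation.ReflTransGen.tail hg ⟨?_, Or.inr hk⟩
    rintro rfl
    exact hA.pnd g g hk rfl
  have hrec : ∀ z, A.Reach h z → A.pt z = none → A.r z = f := fun z hz hp => (key z hz).2.2.2 z rfl hp
  have hone : ∀ y z, A.Reach h y → A.nd z = A.nd y → A.pt y = none → A.pt z = none → z = y := by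
    intro y z hy hn h1 h2
    by_contra hne
    exact hA.rne z y hne h2 h1 hn ((hrec z (hnode y z hy hn) h2).trans (hrec y hy h1).symm)
  refine ⟨?_, hrec⟩
  obtain ⟨C, hC⟩ : ∃ C : Finset H, ∀ g, g ∈ C ↔ A.Reach h g := ⟨univ.filter fun g => A.Reach h g, by simp⟩
  obtain ⟨C', hC'⟩ : ∃ C' : Finset H, ∀ g, g ∈ C' ↔ A.Reach h g ∧ A.pt g ≠ none :=
    ⟨univ.filter fun g => A.Reach h g ∧ A.pt g ≠ none, by simp⟩
  obtain ⟨F, hF⟩ : ∃ F : Finset H, ∀ g, g ∈ F ↔ A.Reach h g ∧ g ≠ h ∧ φ g = f :=
    ⟨univ.filter fun g => A.Reach h g ∧ g ≠ h ∧ φ g = f, by simp⟩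
  have hFn : ∀ g ∈ F, A.pt g ≠ none := by
    intro g hg hp
    obtain ⟨h1, h2, h3⟩ := (hF g).1 hg
    have h4 := hs.lst g (key g h1).1 h2
    unfold Sys.L at h4
    rw [if_pos hp, Finset.mem_erase, hrec g h1 hp] at h4
    exact h4.1 h3
  have hFC : F ⊆ C' := fun g hg => (hC' g).2 ⟨((hF g).1 hg).1, hFn g hg⟩
  have hFadj : ∀ g k, g ∈ F → k ∈ F → A.Adj g k → False := by
    intro g k hg hk hgk
    obtain ⟨g1, g2, g3⟩ := (hF g).1 hg
    obtain ⟨k1, k2, k3⟩ := (hF k).1 hk
    exact hs.prop g k (key g g1).1 (key k k1).1 g2 k2 hgk (g3.trans k3.symm)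
  -- the partners
  let p : H → H := fun g => (A.pt g).getD g
  have hp : ∀ g, A.pt g ≠ none → A.pt g = some (p g) := by
    intro g hg
    obtain ⟨k, hk⟩ := Option.ne_none_iff_exists'.1 hg
    show A.pt g = some ((A.pt g).getD g)
    rw [hk, Option.getD_some]
  have hpp : ∀ g, A.pt g ≠ none → p (p g) = g ∧ A.pt (p g) ≠ none := by
    intro g hg
    have h1 := hA.symm _ _ (hp g hg)
    have h2 : A.pt (p g) ≠ none := by
      rw [h1]
      exact Option.some_ne_none g
    have h3 := hp (p g) h2
    rw [h1] at h3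
    exact ⟨(Option.some.inj h3).symm, h2⟩
  have hpadj : ∀ g, A.pt g ≠ none → A.Adj g (p g) := by
    intro g hg
    refine ⟨fun e => hA.pnd g (p g) (hp g hg) (by rw [← e]), Or.inr (hp g hg)⟩
  -- (i)
  have hi : C'.card = 2 * F.card := by
    have h1 := Finset.card_filter_add_card_filter_not (s := C') (fun g => g ∈ F)
    have h2 : C'.filter (fun g => g ∈ F) = F := by
      ext g
      rw [Finset.mem_filter]
      exact ⟨fun h => h.2, fun h => ⟨hFC h, h⟩⟩
    have h3 : (C'.filter (fun g => ¬ g ∈ F)).card = F.card := by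
      refine Finset.card_bij (fun g _ => p g) ?_ ?_ ?_
      · intro g hg
        rw [Finset.mem_filter] at hg
        obtain ⟨hg1, hg2⟩ := hg
        obtain ⟨g1, g2⟩ := (hC' g).1 hg1
        obtain ⟨g', e1, e2⟩ := cov_all hA hY hs hq g1 g2
        have e3 : g' = p g := by
          have := hp g g2
          rw [e1] at this
          exact Option.some.inj this
        rcases e2 with e2 | e2
        · exact absurd ((hF g).2 ⟨g1, e2⟩) hg2
        · rw [← e3]
          exact (hF g').2 ⟨hpart g g' g1 e1, e2⟩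
      · intro g hg k hk e
        rw [Finset.mem_filter] at hg hk
        have e' : p g = p k := e
        rw [← (hpp g ((hC' g).1 hg.1).2).1, ← (hpp k ((hC' k).1 hk.1).2).1, e']
      · intro x hx
        have hx1 := hFn x hx
        obtain ⟨e1, e2⟩ := hpp x hx1
        refine ⟨p x, ?_, e1⟩
        rw [Finset.mem_filter]
        refine ⟨(hC' _).2 ⟨hpart x _ ((hF x).1 hx).1 (hp x hx1), e2⟩, fun h4 => ?_⟩
        exact hFadj x (p x) hx h4 (hpadj x hx1)
    rw [h2, h3] at h1
    omega
  -- (ii)
  have hhC : h ∈ C := (hC h).2 Relation.ReflTransGen.refl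
  have hii : F.card + 1 = (C.image A.nd).card := by
    have h1 : F.card = ((C.image A.nd).erase (A.nd h)).card := by
      refine Finset.card_bij (fun g _ => A.nd g) ?_ ?_ ?_
      · intro g hg
        obtain ⟨g1, g2, g3⟩ := (hF g).1 hg
        rw [Finset.mem_erase]
        refine ⟨fun e => hq.2.1 g e g2 g3, Finset.mem_image_of_mem _ ((hC g).2 g1)⟩
      · intro g hg k hk e
        by_contra hne
        exact hFadj g k hg hk ⟨hne, Or.inl e⟩
      · intro n hn
        rw [Finset.mem_erase, Finset.mem_image] at hn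
        obtain ⟨hn1, g, hg, rfl⟩ := hn
        have hg1 := (hC g).1 hg
        obtain ⟨-, c1, c2, -⟩ := key g hg1
        have hall : ∀ k ∈ A.fib (A.nd g), A.Reach h k ∧ k ≠ h := by
          intro k hk
          rw [A.mem_fib] at hk
          refine ⟨hnode g k hg1 hk, ?_⟩
          rintro rfl
          exact hn1 hk.symm
        have himg : (A.fib (A.nd g)).image φ = A.Ln (A.nd g) := by
          refine Finset.eq_of_subset_of_card_le ?_ ?_
          · intro c hc
            obtain ⟨k, hk, rfl⟩ := Finset.mem_image.1 hc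
            obtain ⟨k1, k2⟩ := hall k hk
            have h4 := hs.lst k (key k k1).1 k2
            rw [A.mem_fib] at hk
            rw [← hk]
            unfold Sys.L at h4
            split_ifs at h4 with h5
            · exact Finset.mem_of_mem_erase h4
            · exact h4
          · rw [Finset.card_image_of_injOn, c1]
            intro k hk k' hk' e
            by_contra hne
            obtain ⟨k1, k2⟩ := hall k hk
            obtain ⟨k1', k2'⟩ := hall k' hk'
            rw [Finset.mem_coe, A.mem_fib] at hk hk'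
            exact hs.prop k k' (key k k1).1 (key k' k1').1 k2 k2' ⟨hne, Or.inl (hk.trans hk'.symm)⟩ e
        rw [← himg, Finset.mem_image] at c2
        obtain ⟨k, hk, hkf⟩ := c2
        obtain ⟨k1, k2⟩ := hall k hk
        exact ⟨k, (hF k).2 ⟨k1, k2, hkf⟩, (A.mem_fib).1 hk⟩
    rw [h1, Finset.card_erase_of_mem (Finset.mem_image_of_mem _ hhC)]
    have h2 : 0 < (C.image A.nd).card := Finset.card_pos.2 ⟨_, Finset.mem_image_of_mem _ hhC⟩
    omega
  -- (iii)
  have hiii : C'.card = ∑ n ∈ C.image A.nd, (C'.filter fun g => A.nd g = n).card := by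
    refine Finset.card_eq_sum_card_fiberwise fun g hg => ?_
    exact Finset.mem_coe.2 (Finset.mem_image_of_mem _ ((hC g).2 ((hC' g).1 hg).1))
  have hfib : ∀ n ∈ C.image A.nd, 2 ≤ (A.fib n).card ∧
      (A.fib n).card = (C'.filter fun g => A.nd g = n).card + ((A.fib n).filter fun g => A.pt g = none).card ∧
      ((A.fib n).filter fun g => A.pt g = none).card ≤ 1 := by
    intro n hn
    obtain ⟨g, hg, rfl⟩ := Finset.mem_image.1 hn
    have hg1 := (hC g).1 hg
    refine ⟨?_, ?_, ?_⟩
    · rw [(key g hg1).2.1]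
      exact hA.two g
    · have h1 := Finset.card_filter_add_card_filter_not (s := A.fib (A.nd g)) (fun k => A.pt k = none)
      have h2 : (A.fib (A.nd g)).filter (fun k => ¬ A.pt k = none) = C'.filter fun k => A.nd k = A.nd g := by
        ext k
        rw [Finset.mem_filter, Finset.mem_filter, A.mem_fib, hC']
        constructor
        · rintro ⟨a1, a2⟩
          exact ⟨⟨hnode g k hg1 a1, a2⟩, a1⟩
        · rintro ⟨⟨-, a2⟩, a1⟩
          exact ⟨a1, a2⟩
      rw [h2] at h1
      omega
    · rw [Finset.card_le_one]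
      intro a ha b hb
      rw [Finset.mem_filter, A.mem_fib] at ha hb
      exact hone b a (hnode g b hg1 hb.1) (ha.1.trans hb.1.symm) hb.2 ha.2
  have hS : 1 < ((C.image A.nd).filter fun n => (C'.filter fun g => A.nd g = n).card = 1).card := by
    have h1 : ∑ n ∈ C.image A.nd, 2 ≤ ∑ n ∈ C.image A.nd, ((C'.filter fun g => A.nd g = n).card +
        if (C'.filter fun g => A.nd g = n).card = 1 then 1 else 0) := by
      refine Finset.sum_le_sum fun n hn => ?_
      obtain ⟨a1, a2, a3⟩ := hfib n hn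
      split_ifs with a4 <;> omega
    rw [Finset.sum_add_distrib, ← hiii, Finset.sum_const, smul_eq_mul, ← Finset.card_filter] at h1
    omega
  have hy : ∀ n ∈ (C.image A.nd).filter (fun n => (C'.filter fun g => A.nd g = n).card = 1),
      ∃ y, A.nd y = n ∧ A.F1 y ∧ A.Reach h y := by
    intro n hn
    rw [Finset.mem_filter] at hn
    obtain ⟨a1, a2, a3⟩ := hfib n hn.1
    have h1 : ((A.fib n).filter fun g => A.pt g = none).card = 1 := by omega
    obtain ⟨y, hy⟩ := Finset.card_eq_one.1 h1
    have hy1 : y ∈ (A.fib n).filter fun g => A.pt g = none := by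
      rw [hy]
      exact Finset.mem_singleton_self y
    rw [Finset.mem_filter, A.mem_fib] at hy1
    obtain ⟨g, hg, hgn⟩ := Finset.mem_image.1 hn.1
    have hyr : A.Reach h y := hnode g y ((hC g).1 hg) (hy1.1.trans hgn.symm)
    refine ⟨y, hy1.1, ⟨hy1.2, ?_, fun z hz hzy hpz => hzy (hone y z hyr hz hy1.2 hpz)⟩, hyr⟩
    rw [hy1.1]
    omega
  obtain ⟨n1, hn1, n2, hn2, hne⟩ := Finset.one_lt_card.1 hS
  obtain ⟨y1, e1, f1, r1⟩ := hy n1 hn1
  obtain ⟨y2, e2, f2, r2⟩ := hy n2 hn2
  refine ⟨y1, y2, ?_, f1, f2, r1, r2⟩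
  rintro rfl
  exact hne (e1.symm.trans e2)

theorem col (hA : A.Ok)
    (hT : ∀ y1 y2, A.F1 y1 → A.F1 y2 → y1 ≠ y2 → A.Reach y1 y2 →
      ∃ z1 z2, A.F1 z1 ∧ A.F1 z2 ∧ A.Reach y1 z1 ∧ A.Reach y1 z2 ∧ A.r z1 ≠ A.r z2) : A.Col ∅ := by
  by_contra hc
  obtain ⟨Y, φ, h, hY, hs⟩ := exists_st hc
  obtain ⟨f, hq⟩ := exists_Q hA hY hs
  obtain ⟨⟨y1, y2, hne, f1, f2, r1, r2⟩, hrec⟩ := two_F1 hA hY hs hq
  obtain ⟨z1, z2, g1, g2, s1, s2, hr⟩ := hT y1 y2 f1 f2 hne (Relation.ReflTransGen.trans (reach_symm hA r1) r2)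
  exact hr ((hrec z1 (Relation.ReflTransGen.trans r1 s1) g1.1).trans
    (hrec z2 (Relation.ReflTransGen.trans r1 s2) g2.1).symm)

end Pool.Agent.FF.Sys
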