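import Pool.Agent.FF.Main

/-!
MP_dadc3d_co, FF. Orders from successive insertion.

`exists_order_need`: suppose every nonempty set `T` of vertices contains a vertex `v` with
`2 * need v + |N(v) ∩ T| ≤ degree v`. Then the vertices can be placed on a line with at least
`need v` neighbours on both sides of every `v`. For `need v = degree v - 4`:
suppose every nonempty set `T` of vertices contains a vertex `v` with `degree v + |N(v) ∩ T| ≤ 8`
(for maximum degree at most 6: the graph induced by the vertices of degree 5 and 6 can be reduced to
nothing by deleting vertices of degree 6 with at most two, and vertices of degree 5 with at most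
three remaining neighbours). Then there is an order with at most four neighbours before and at most
four neighbours after each vertex: insert the vertices one by one, `T` the set of those not yet
inserted, such that `degree v - 4` of the at least `2 * degree v - 8` inserted neighbours of `v` are
before `v` and as many after `v`.
-/

set_option autoImplicit false

namespace Pool.Agent.FF

open Finset

/-- a point with at least `m` members of `S` on both sides, outside a finite set -/
theorem exists_mid (m : ℕ) : ∀ (S F : Finset ℚ), 2 * m ≤ S.card →
    ∃ x : ℚ, x ∉ F ∧ m ≤ (S.filter fun s => s < x).card ∧ m ≤ (S.filter fun s => x < s).card := by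
  induction m with
  | zero =>
    intro S F _
    obtain ⟨x, hx⟩ := Infinite.exists_notMem_finset F
    exact ⟨x, hx, Nat.zero_le _, Nat.zero_le _⟩
  | succ m ih =>
    intro S F hS
    have hne : S.Nonempty := card_pos.1 (by omega)
    set a := S.min' hne with ha
    set b := S.max' hne with hb
    have haS : a ∈ S := S.min'_mem hne
    have hbS : b ∈ S := S.max'_mem hne
    have hab : a < b := by
      have h1 : 1 < S.card := by omega
      exact S.min'_lt_max'_of_card h1
    have hle : ∀ s ∈ S, a ≤ s := fun s hs => S.min'_le s hs
    have hge : ∀ s ∈ S, s ≤ b := fun s hs => S.le_max' s hs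
    set S' := (S.erase a).erase b with hS'
    have hS'c : 2 * m ≤ S'.card := by
      rw [hS', card_erase_of_mem (mem_erase.2 ⟨hab.ne', hbS⟩), card_erase_of_mem haS]
      omega
    have key : ∀ x : ℚ, a < x → x < b → m ≤ (S'.filter fun s => s < x).card →
        m ≤ (S'.filter fun s => x < s).card →
        m + 1 ≤ (S.filter fun s => s < x).card ∧ m + 1 ≤ (S.filter fun s => x < s).card := by
      intro x hax hxb h1 h2
      constructor
      · have h3 : insert a (S'.filter fun s => s < x) ⊆ S.filter fun s => s < x := by
          intro s hs
          rw [mem_insert] at hs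
          rw [mem_filter]
          rcases hs with rfl | hs
          · exact ⟨haS, hax⟩
          · rw [mem_filter, hS', mem_erase, mem_erase] at hs
            exact ⟨hs.1.2.2, hs.2⟩
        have h4 : a ∉ S'.filter fun s => s < x := by
          intro h
          rw [mem_filter, hS', mem_erase, mem_erase] at h
          exact h.1.2.1 rfl
        have h5 := card_le_card h3
        rw [card_insert_of_notMem h4] at h5
        omega
      · have h3 : insert b (S'.filter fun s => x < s) ⊆ S.filter fun s => x < s := by
          intro s hs
          rw [mem_insert] at hs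
          rw [mem_filter]
          rcases hs with rfl | hs
          · exact ⟨hbS, hxb⟩
          · rw [mem_filter, hS', mem_erase, mem_erase] at hs
            exact ⟨hs.1.2.2, hs.2⟩
        have h4 : b ∉ S'.filter fun s => x < s := by
          intro h
          rw [mem_filter, hS', mem_erase, mem_erase] at h
          exact h.1.1 rfl
        have h5 := card_le_card h3
        rw [card_insert_of_notMem h4] at h5
        omega
    rcases Nat.eq_zero_or_pos m with hm | hm
    · subst hm
      obtain ⟨x, hx, hxF⟩ := (Set.Ioo_infinite hab).exists_notMem_finset F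
      have := key x hx.1 hx.2 (Nat.zero_le _) (Nat.zero_le _)
      exact ⟨x, hxF, this⟩
    · obtain ⟨x, hxF, h1, h2⟩ := ih S' F hS'c
      obtain ⟨s, hs⟩ := card_pos.1 (lt_of_lt_of_le hm h1)
      obtain ⟨t, ht⟩ := card_pos.1 (lt_of_lt_of_le hm h2)
      rw [mem_filter, hS', mem_erase, mem_erase] at hs ht
      have hax : a < x := lt_of_le_of_lt (hle s hs.1.2.2) hs.2
      have hxb : x < b := lt_of_lt_of_le ht.2 (hge t ht.1.2.2)
      exact ⟨x, hxF, key x hax hxb h1 h2⟩

variable {V : Type} [Fintype V] [DecidableEq V] (G : SimpleGraph V) [DecidableRel G.Adj]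

/-- insertion of `k` vertices -/
private lemma exists_ins (need : V → ℕ)
    (h : ∀ T : Finset V, T.Nonempty → ∃ v ∈ T, 2 * need v + (T.filter fun w => G.Adj v w).card ≤ G.degree v) (k : ℕ) :
    k ≤ Fintype.card V → ∃ (A : Finset V) (p : V → ℚ), A.card = k ∧ (∀ v ∈ A, ∀ w ∈ A, p v = p w → v = w) ∧
      (∀ v ∈ A, need v ≤ (A.filter fun w => G.Adj v w ∧ p w < p v).card) ∧
      (∀ v ∈ A, need v ≤ (A.filter fun w => G.Adj v w ∧ p v < p w).card) := by
  induction k with
  | zero =>
    intro _
    refine ⟨∅, fun _ => 0, rfl, ?_, ?_, ?_⟩
    · intro v hv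
      exact absurd hv (notMem_empty v)
    · intro v hv
      exact absurd hv (notMem_empty v)
    · intro v hv
      exact absurd hv (notMem_empty v)
  | succ k ih =>
    intro hk
    obtain ⟨A, p, hA, hi, hb, hf⟩ := ih (by omega)
    have hT : (univ \ A).Nonempty := by
      rw [← card_pos, card_sdiff_of_subset (subset_univ A), card_univ]
      omega
    obtain ⟨v, hvT, hv⟩ := h _ hT
    have hvA : v ∉ A := (mem_sdiff.1 hvT).2
    -- the inserted neighbours
    have hN : 2 * need v ≤ (A.filter fun w => G.Adj v w).card := by
      have h1 : G.degree v = (A.filter fun w => G.Adj v w).card + ((univ \ A).filter fun w => G.Adj v w).card := by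
        rw [← card_union_of_disjoint, ← filter_union, union_sdiff_of_subset (subset_univ A),
          ← SimpleGraph.card_neighborFinset_eq_degree]
        · congr 1
          ext w
          rw [SimpleGraph.mem_neighborFinset, mem_filter]
          exact ⟨fun h => ⟨mem_univ _, h⟩, fun h => h.2⟩
        · exact disjoint_filter_filter disjoint_sdiff
      omega
    have hinj : Set.InjOn p ((A.filter fun w => G.Adj v w : Finset V) : Set V) := by
      intro x hx y hy hxy
      rw [mem_coe, mem_filter] at hx hy
      exact hi x hx.1 y hy.1 hxy
    obtain ⟨x, hxF, h1, h2⟩ := exists_mid (need v) ((A.filter fun w => G.Adj v w).image p) (A.image p)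
      (by rw [card_image_of_injOn hinj]; exact hN)
    set q : V → ℚ := Function.update p v x with hq
    have hqv : q v = x := Function.update_self v x p
    have hqA : ∀ w ∈ A, q w = p w := by
      intro w hw
      exact Function.update_of_ne (fun h : w = v => hvA (h ▸ hw)) x p
    refine ⟨insert v A, q, by rw [card_insert_of_notMem hvA, hA], ?_, ?_, ?_⟩
    · intro a ha b hb' hab
      rw [mem_insert] at ha hb'
      rcases ha with rfl | ha <;> rcases hb' with rfl | hb'
      · rfl
      · rw [hqv, hqA b hb'] at hab
        exact absurd (mem_image.2 ⟨b, hb', hab.symm⟩) hxF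
      · rw [hqv, hqA a ha] at hab
        exact absurd (mem_image.2 ⟨a, ha, hab⟩) hxF
      · rw [hqA a ha, hqA b hb'] at hab
        exact hi a ha b hb' hab
    · intro u hu
      rw [mem_insert] at hu
      rcases hu with rfl | hu
      · refine h1.trans ?_
        have h3 : (((A.filter fun w => G.Adj u w).image p).filter fun s => s < x) ⊆
            ((insert u A).filter fun w => G.Adj u w ∧ q w < q u).image p := by
          intro s hs
          rw [mem_filter, mem_image] at hs
          obtain ⟨⟨w, hw, rfl⟩, hs⟩ := hs
          rw [mem_filter] at hw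
          rw [mem_image]
          refine ⟨w, ?_, rfl⟩
          rw [mem_filter, mem_insert, hqv, hqA w hw.1]
          exact ⟨Or.inr hw.1, hw.2, hs⟩
        exact (card_le_card h3).trans card_image_le
      · refine (hb u hu).trans (card_le_card ?_)
        intro w hw
        rw [mem_filter] at hw
        rw [mem_filter, mem_insert, hqA u hu, hqA w hw.1]
        exact ⟨Or.inr hw.1, hw.2⟩
    · intro u hu
      rw [mem_insert] at hu
      rcases hu with rfl | hu
      · refine h2.trans ?_
        have h3 : (((A.filter fun w => G.Adj u w).image p).filter fun s => x < s) ⊆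
            ((insert u A).filter fun w => G.Adj u w ∧ q u < q w).image p := by
          intro s hs
          rw [mem_filter, mem_image] at hs
          obtain ⟨⟨w, hw, rfl⟩, hs⟩ := hs
          rw [mem_filter] at hw
          rw [mem_image]
          refine ⟨w, ?_, rfl⟩
          rw [mem_filter, mem_insert, hqv, hqA w hw.1]
          exact ⟨Or.inr hw.1, hw.2, hs⟩
        exact (card_le_card h3).trans card_image_le
      · refine (hf u hu).trans (card_le_card ?_)
        intro w hw
        rw [mem_filter] at hw
        rw [mem_filter, mem_insert, hqA u hu, hqA w hw.1]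
        exact ⟨Or.inr hw.1, hw.2⟩

/-- the order from insertion: `need v` neighbours on both sides of `v` -/
theorem exists_order_need (need : V → ℕ)
    (h : ∀ T : Finset V, T.Nonempty → ∃ v ∈ T, 2 * need v + (T.filter fun w => G.Adj v w).card ≤ G.degree v) :
    ∃ p : V → ℚ, Function.Injective p ∧
      (∀ v, (univ.filter fun w => G.Adj v w ∧ p w < p v).card + need v ≤ G.degree v) ∧
      (∀ v, (univ.filter fun w => G.Adj v w ∧ p v < p w).card + need v ≤ G.degree v) := by
  obtain ⟨A, p, hA, hi, hb, hf⟩ := exists_ins G need h (Fintype.card V) le_rfl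
  have hAu : A = univ := by
    rw [← card_eq_iff_eq_univ]
    exact hA
  subst hAu
  have hsum : ∀ v, (univ.filter fun w => G.Adj v w ∧ p w < p v).card +
      (univ.filter fun w => G.Adj v w ∧ p v < p w).card ≤ G.degree v := by
    intro v
    rw [← card_union_of_disjoint]
    · rw [← SimpleGraph.card_neighborFinset_eq_degree]
      refine card_le_card ?_
      intro w hw
      rw [mem_union, mem_filter, mem_filter] at hw
      rw [SimpleGraph.mem_neighborFinset]
      rcases hw with hw | hw
      · exact hw.2.1
      · exact hw.2.1
    · rw [disjoint_left]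
      intro w hw hw'
      rw [mem_filter] at hw hw'
      exact lt_asymm hw.2.2 hw'.2.2
  refine ⟨p, fun v w hvw => hi v (mem_univ _) w (mem_univ _) hvw, ?_, ?_⟩
  · intro v
    have h1 := hsum v
    have h2 := hf v (mem_univ v)
    omega
  · intro v
    have h1 := hsum v
    have h2 := hb v (mem_univ v)
    omega

private lemma card_nbr_le (v : V) (T : Finset V) : (T.filter fun w => G.Adj v w).card ≤ G.degree v := by
  rw [← SimpleGraph.card_neighborFinset_eq_degree]
  refine card_le_card fun w hw => ?_
  rw [mem_filter] at hw
  rw [SimpleGraph.mem_neighborFinset]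
  exact hw.2

/-- at most four neighbours on both sides -/
theorem exists_insertion
    (h : ∀ T : Finset V, T.Nonempty → ∃ v ∈ T, G.degree v + (T.filter fun w => G.Adj v w).card ≤ 8) :
    ∃ p : V → ℚ, Function.Injective p ∧
      (∀ v, (univ.filter fun w => G.Adj v w ∧ p w < p v).card ≤ 4) ∧
      (∀ v, (univ.filter fun w => G.Adj v w ∧ p v < p w).card ≤ 4) := by
  obtain ⟨p, hp, h1, h2⟩ := exists_order_need G (fun v => G.degree v - 4) (by
    intro T hT
    obtain ⟨v, hv, h1⟩ := h T hT
    refine ⟨v, hv, ?_⟩
    have h2 := card_nbr_le G v T
    show 2 * (G.degree v - 4) + (T.filter fun w => G.Adj v w).card ≤ G.degree v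
    omega)
  refine ⟨p, hp, fun v => ?_, fun v => ?_⟩
  · have h3 : (univ.filter fun w => G.Adj v w ∧ p w < p v).card + (G.degree v - 4) ≤ G.degree v := h1 v
    have h4 : (univ.filter fun w => G.Adj v w ∧ p w < p v).card ≤ G.degree v := by omega
    omega
  · have h3 : (univ.filter fun w => G.Adj v w ∧ p v < p w).card + (G.degree v - 4) ≤ G.degree v := h2 v
    omega

/-- at most three neighbours on both sides of the vertices outside an independent set -/
theorem exists_insertion_three (Y : Finset V)
    (h : ∀ T : Finset V, T.Nonempty → Disjoint T Y →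
      ∃ v ∈ T, G.degree v + (T.filter fun w => G.Adj v w).card ≤ 6) :
    ∃ p : V → ℚ, Function.Injective p ∧
      (∀ v, v ∉ Y → (univ.filter fun w => G.Adj v w ∧ p w < p v).card ≤ 3) ∧
      (∀ v, v ∉ Y → (univ.filter fun w => G.Adj v w ∧ p v < p w).card ≤ 3) := by
  obtain ⟨p, hp, h1, h2⟩ := exists_order_need G (fun v => if v ∈ Y then 0 else G.degree v - 3) (by
    intro T hT
    by_cases hTY : Disjoint T Y
    · obtain ⟨v, hv, h1⟩ := h T hT hTY
      refine ⟨v, hv, ?_⟩
      have h2 := card_nbr_le G v T
      have h3 : v ∉ Y := fun h => (disjoint_left.1 hTY) hv h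
      show 2 * (if v ∈ Y then 0 else G.degree v - 3) + (T.filter fun w => G.Adj v w).card ≤ G.degree v
      rw [if_neg h3]
      omega
    · rw [not_disjoint_iff] at hTY
      obtain ⟨v, hv, hvY⟩ := hTY
      refine ⟨v, hv, ?_⟩
      have h2 := card_nbr_le G v T
      show 2 * (if v ∈ Y then 0 else G.degree v - 3) + (T.filter fun w => G.Adj v w).card ≤ G.degree v
      rw [if_pos hvY]
      omega)
  refine ⟨p, hp, fun v hv => ?_, fun v hv => ?_⟩
  · have h3 : (univ.filter fun w => G.Adj v w ∧ p w < p v).card +
        (if v ∈ Y then 0 else G.degree v - 3) ≤ G.degree v := h1 v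
    rw [if_neg hv] at h3
    omega
  · have h3 : (univ.filter fun w => G.Adj v w ∧ p v < p w).card +
        (if v ∈ Y then 0 else G.degree v - 3) ≤ G.degree v := h2 v
    rw [if_neg hv] at h3
    omega

end Pool.Agent.FF
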