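import Pool.Agent.FF.Sysd

/-!
MP_dadc3d_co, FF. The system of the halves satisfies the general assumptions.

`symm`, `pnd`: clear from the definition of `pt` (`(x, y)` not special by membership in `Hf`; different vertices, `G.Adj`). `two`: `univ.erase _` has 2 elements.
`fib`: the halves of `(x, false)` are the `(x, y)` in `Hf` with not `Pl x y`, so not `o x < o y` (as `(x, y)` is not `IsUp`), so `y ∈ Px x`, and `y ≠ m(x)` if `|Px x| = 4` (`exists_isDn`; `(x, m(x))` is special, not in `Hf`). So there are at most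
`|Px x| ≤ 2` of them if `|Sx x| = 4` (`d6`), at most `4 - 1 = 3` if `|Px x| = 4`, and at most `|Px x| ≤ 3` otherwise. In the same way for `(x, true)`: `Pl x y` and not `IsDn x y`, so `o x < o y`, `y ∈ Sx x`, `y ≠ m(x)` if `|Sx x| = 4`.
(The map `h ↦ h.1.2` is injective on the fibre.)
`rmem`: `pt h = none` means that `(y, x)` is special, where `h = (x, y)`. If `IsUp y x` then `o y < o x` and `(x, y)` is in the node `(x, false)` (not `Pl x y`: `IsDn x y` is excluded by membership in `Hf`). If `|Sx x| = 4` then `c y ≠ c x` by `TokCol.u1`. If `IsDn y x` then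
`o x < o y`, the node is `(x, true)` (`¬ IsUp x y` by membership), and `c y ≠ c x` if `|Px x| = 4` by `TokCol.d1`.
`rne`: two receivers `(x, y)`, `(x, y')` in the same node are both of the kind `IsUp y x` (node `(x, false)`) or both of the kind `IsDn y x` (node `(x, true)`), `y ≠ y'`; `u2`, `d2`.
-/

set_option autoImplicit false

namespace Pool.Agent.FF

open Finset

private theorem pl_of_up {V : Type} [Fintype V] {G : SimpleGraph V} {o : V → ℤ} {x y : V} (hy : IsUp G o y x)
    (hs : ¬ Sp G o x y) : ¬ Pl G o x y := by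
  rintro (⟨h1, -⟩ | h1)
  · have h2 := (mem_Sx.1 hy.2.1).2
    omega
  · exact hs (Or.inr h1)

private theorem pl_of_dn {V : Type} [Fintype V] {G : SimpleGraph V} {o : V → ℤ} {x y : V} (hy : IsDn G o y x)
    (hs : ¬ Sp G o x y) : Pl G o x y :=
  Or.inl ⟨(mem_Px.1 hy.2.1).2, fun h1 => hs (Or.inl h1)⟩

private theorem pt_none {V : Type} [Fintype V] {G : SimpleGraph V} {o : V → ℤ} {c : V → Fin 3} {g : Hf G o}
    (h : (sys G o c).pt g = none) : Sp G o g.1.2 g.1.1 := by
  by_contra h1
  simp only [sys] at h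
  rw [dif_neg h1] at h
  exact absurd h (by simp)

private theorem pt_some {V : Type} [Fintype V] {G : SimpleGraph V} {o : V → ℤ} {c : V → Fin 3} {g k : Hf G o}
    (h : (sys G o c).pt g = some k) : k.1 = (g.1.2, g.1.1) := by
  by_cases h1 : Sp G o g.1.2 g.1.1
  · simp only [sys] at h
    rw [dif_pos h1] at h
    exact absurd h (by simp)
  · simp only [sys] at h
    rw [dif_neg h1] at h
    have h2 := Option.some.inj h
    rw [← h2]

private theorem nd_fst {V : Type} [Fintype V] {G : SimpleGraph V} {o : V → ℤ} {c : V → Fin 3} (g : Hf G o) :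
    ((sys G o c).nd g).1 = g.1.1 := rfl

private theorem nd_false {V : Type} [Fintype V] {G : SimpleGraph V} {o : V → ℤ} {c : V → Fin 3} (g : Hf G o) :
    ((sys G o c).nd g).2 = false ↔ ¬ Pl G o g.1.1 g.1.2 := by
  simp [sys]

private theorem nd_true {V : Type} [Fintype V] {G : SimpleGraph V} {o : V → ℤ} {c : V → Fin 3} (g : Hf G o) :
    ((sys G o c).nd g).2 = true ↔ Pl G o g.1.1 g.1.2 := by
  simp [sys]

private theorem ln_pos {V : Type} [Fintype V] {G : SimpleGraph V} {o : V → ℤ} {c : V → Fin 3} {n : V × Bool}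
    (h : (n.2 = false ∧ (Sx G o n.1).card = 4) ∨ (n.2 = true ∧ (Px G o n.1).card = 4)) :
    (sys G o c).Ln n = univ.erase (c n.1) := by
  simp only [sys]
  rw [if_pos h]

private theorem ln_neg {V : Type} [Fintype V] {G : SimpleGraph V} {o : V → ℤ} {c : V → Fin 3} {n : V × Bool}
    (h : ¬ ((n.2 = false ∧ (Sx G o n.1).card = 4) ∨ (n.2 = true ∧ (Px G o n.1).card = 4))) :
    (sys G o c).Ln n = univ := by
  simp only [sys]
  rw [if_neg h]

private theorem ln_pos_card {V : Type} [Fintype V] {G : SimpleGraph V} {o : V → ℤ} {c : V → Fin 3} {n : V × Bool}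
    (h : (n.2 = false ∧ (Sx G o n.1).card = 4) ∨ (n.2 = true ∧ (Px G o n.1).card = 4)) :
    ((sys G o c).Ln n).card = 2 := by
  rw [ln_pos h, card_erase_of_mem (mem_univ _)]
  simp

private theorem ln_neg_card {V : Type} [Fintype V] {G : SimpleGraph V} {o : V → ℤ} {c : V → Fin 3} {n : V × Bool}
    (h : ¬ ((n.2 = false ∧ (Sx G o n.1).card = 4) ∨ (n.2 = true ∧ (Px G o n.1).card = 4))) :
    ((sys G o c).Ln n).card = 3 := by
  rw [ln_neg h]
  simp

private theorem fib_card {V : Type} [Fintype V] {G : SimpleGraph V} {o : V → ℤ} {c : V → Fin 3} (n : V × Bool)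
    (T : Finset V) (hT : ∀ g : Hf G o, (sys G o c).nd g = n → g.1.2 ∈ T) : ((sys G o c).fib n).card ≤ T.card := by
  refine card_le_card_of_injOn (fun g : Hf G o => g.1.2) ?_ ?_
  · intro g hg
    exact hT g ((sys G o c).mem_fib.1 hg)
  · intro g hg k hk hgk
    have h1 := (sys G o c).mem_fib.1 hg
    have h2 := (sys G o c).mem_fib.1 hk
    have h3 : g.1.1 = k.1.1 := by
      rw [← nd_fst (c := c) g, ← nd_fst (c := c) k, h1, h2]
    exact Subtype.ext (Prod.ext h3 hgk)

theorem sys_ok {V : Type} [Fintype V] {G : SimpleGraph V} {o : V → ℤ} (h : Good G o) {c : V → Fin 3} (hc : TokCol G o c) :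
    (sys G o c).Ok := by
  classical
  refine ⟨?_, ?_, ?_, ?_, ?_, ?_⟩
  · -- symm
    intro g k hgk
    have h1 := pt_some hgk
    have h2 : ¬ Sp G o k.1.2 k.1.1 := by
      rw [h1]
      exact g.2.2
    simp only [sys]
    rw [dif_neg h2]
    congr 1
    apply Subtype.ext
    show (k.1.2, k.1.1) = g.1
    rw [h1]
  · -- pnd
    intro g k hgk h1
    have h2 := pt_some hgk
    have h3 := congrArg Prod.fst h1
    rw [nd_fst, nd_fst, h2] at h3
    exact g.2.1.ne h3
  · -- two
    intro g
    by_cases h1 : ((((sys G o c).nd g).2 = false ∧ (Sx G o ((sys G o c).nd g).1).card = 4) ∨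
      (((sys G o c).nd g).2 = true ∧ (Px G o ((sys G o c).nd g).1).card = 4))
    · rw [ln_pos_card h1]
    · rw [ln_neg_card h1]
      omega
  · -- fib
    rintro ⟨x, b⟩
    cases b with
    | false =>
      have hP : ∀ g : Hf G o, (sys G o c).nd g = (x, false) → g.1.2 ∈ Px G o x ∧ ¬ IsDn G o x g.1.2 := by
        intro g hg
        have h1 : g.1.1 = x := congrArg Prod.fst hg
        have h2 : ¬ Pl G o g.1.1 g.1.2 := (nd_false (c := c) g).1 (congrArg Prod.snd hg)
        have h3 := g.2.1
        have h4 := g.2.2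
        rw [h1] at h2 h3 h4
        refine ⟨mem_Px.2 ⟨h3, ?_⟩, fun h5 => h4 (Or.inr h5)⟩
        rcases lt_trichotomy (o x) (o g.1.2) with h5 | h5 | h5
        · exact absurd (Or.inl ⟨h5, fun h6 => h4 (Or.inl h6)⟩) h2
        · exact absurd (h.inj h5) h3.ne
        · exact h5
      by_cases h1 : (Sx G o x).card = 4
      · have h2 := fib_card (c := c) (x, false) (Px G o x) (fun g hg => (hP g hg).1)
        have h3 := h.d6 x
        rw [ln_pos_card (Or.inl ⟨rfl, h1⟩)]
        omega
      · have h6 : ((sys G o c).Ln (x, false)).card = 3 := ln_neg_card (by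
          rintro (⟨-, h7⟩ | ⟨h7, -⟩)
          · exact h1 h7
          · exact absurd h7 (by simp))
        rw [h6]
        by_cases h2 : (Px G o x).card = 4
        · obtain ⟨w, hw⟩ := exists_isDn h2
          have h3 := fib_card (c := c) (x, false) ((Px G o x).erase w) (fun g hg => by
            refine mem_erase.2 ⟨?_, (hP g hg).1⟩
            intro h4
            apply (hP g hg).2
            rw [h4]
            exact hw)
          rw [card_erase_of_mem hw.2.1, h2] at h3
          omega
        · have h2' := fib_card (c := c) (x, false) (Px G o x) (fun g hg => (hP g hg).1)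
          have h3 := h.p4 x
          omega
    | true =>
      have hP : ∀ g : Hf G o, (sys G o c).nd g = (x, true) → g.1.2 ∈ Sx G o x ∧ ¬ IsUp G o x g.1.2 := by
        intro g hg
        have h1 : g.1.1 = x := congrArg Prod.fst hg
        have h2 : Pl G o g.1.1 g.1.2 := (nd_true (c := c) g).1 (congrArg Prod.snd hg)
        have h3 := g.2.1
        have h4 := g.2.2
        rw [h1] at h2 h3 h4
        refine ⟨mem_Sx.2 ⟨h3, ?_⟩, fun h5 => h4 (Or.inl h5)⟩
        rcases h2 with h2 | h2
        · exact h2.1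
        · exact absurd (Or.inr h2) h4
      by_cases h1 : (Px G o x).card = 4
      · have h2 := fib_card (c := c) (x, true) (Sx G o x) (fun g hg => (hP g hg).1)
        have h3 := h.d6 x
        rw [ln_pos_card (Or.inr ⟨rfl, h1⟩)]
        omega
      · have h6 : ((sys G o c).Ln (x, true)).card = 3 := ln_neg_card (by
          rintro (⟨h7, -⟩ | ⟨-, h7⟩)
          · exact absurd h7 (by simp)
          · exact h1 h7)
        rw [h6]
        by_cases h2 : (Sx G o x).card = 4
        · obtain ⟨w, hw⟩ := exists_isUp h2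
          have h3 := fib_card (c := c) (x, true) ((Sx G o x).erase w) (fun g hg => by
            refine mem_erase.2 ⟨?_, (hP g hg).1⟩
            intro h4
            apply (hP g hg).2
            rw [h4]
            exact hw)
          rw [card_erase_of_mem hw.2.1, h2] at h3
          omega
        · have h2' := fib_card (c := c) (x, true) (Sx G o x) (fun g hg => (hP g hg).1)
          have h3 := h.s4 x
          omega
  · -- rmem
    intro g hg
    show c g.1.2 ∈ _
    by_cases h1 : ((((sys G o c).nd g).2 = false ∧ (Sx G o ((sys G o c).nd g).1).card = 4) ∨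
      (((sys G o c).nd g).2 = true ∧ (Px G o ((sys G o c).nd g).1).card = 4))
    · rw [ln_pos h1, nd_fst]
      rw [nd_false, nd_true, nd_fst] at h1
      refine mem_erase.2 ⟨?_, mem_univ _⟩
      rcases pt_none hg with h2 | h2
      · rcases h1 with h1 | h1
        · exact hc.u1 _ _ h2 h1.2
        · exact absurd h1.1 (pl_of_up h2 g.2.2)
      · rcases h1 with h1 | h1
        · exact absurd (pl_of_dn h2 g.2.2) h1.1
        · exact hc.d1 _ _ h2 h1.2
    · rw [ln_neg h1]
      exact mem_univ _
  · -- rne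
    intro g k hgk hg hk hn
    show c g.1.2 ≠ c k.1.2
    have h1 : g.1.1 = k.1.1 := by
      rw [← nd_fst (c := c) g, ← nd_fst (c := c) k, hn]
    have h2 : g.1.2 ≠ k.1.2 := fun h3 => hgk (Subtype.ext (Prod.ext h1 h3))
    have h3 : Pl G o g.1.1 g.1.2 ↔ Pl G o k.1.1 k.1.2 := by
      rw [← nd_true (c := c) g, ← nd_true (c := c) k, hn]
    rcases pt_none hg with h4 | h4 <;> rcases pt_none hk with h5 | h5
    · rw [← h1] at h5
      exact hc.u2 _ _ _ h4 h5 h2
    · exact absurd (h3.2 (pl_of_dn h5 k.2.2)) (pl_of_up h4 g.2.2)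
    · exact absurd (h3.1 (pl_of_dn h4 g.2.2)) (pl_of_up h5 k.2.2)
    · rw [← h1] at h5
      exact hc.d2 _ _ _ h4 h5 h2

end Pool.Agent.FF
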