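import Pool.Agent.FF.Sysd

/-!
MP_dadc3d_co, FF. `F1` for the system of halves and `F1tok` for the tokens.

`tok_f1`: let `F1tok v`, first alternative: `w` with `IsUp v w`, `v` is the only one, `|Px w| = 2`. The half `y = (w, v)` is adjacent, not special (`Sp.not_symm`), a receiver; its node is `(w, false)` (`o v < o w`, so not `o w < o v`; not `IsDn w v`). The halves of
this node are the `(w, x)` with not `Pl w x` in `Hf`: `x ∈ Px w`; and all `x ∈ Px w` occur (`w` is not a down vertex: `Good.up`; `o x < o w`, so not `Pl w x` and not `IsUp w x`). So `|fib| = 2`. For the other one `(w, x)`, `x ≠ v`: `(x, w)` is not special: `IsUp x w` would give `x = v`,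
`IsDn x w` would give `o w < o x`. Second alternative in the same way (with `Sx w`, node `(w, true)`, `Good.dn`).
`f1_tok`: let `F1 y`, `y = (x, z)`, `(z, x)` is special. If `IsUp z x`: node `(x, false)` as above, its halves are exactly the `(x, t)`, `t ∈ Px x` (`x` is not a down vertex), so `|Px x| = 2`; if `IsUp v' x`, `v' ≠ z`, then `(x, v')` is in the node and a receiver, against `F1`. So the
first alternative of `F1tok z`. In the same way for `IsDn z x`.
-/

set_option autoImplicit false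

namespace Pool.Agent.FF

open Finset

private theorem pt_none {V : Type} [Fintype V] {G : SimpleGraph V} {o : V → ℤ} {c : V → Fin 3} {g : Hf G o} :
    (sys G o c).pt g = none ↔ Sp G o g.1.2 g.1.1 := by
  constructor
  · intro h
    by_contra h1
    simp only [sys] at h
    rw [dif_neg h1] at h
    exact absurd h (by simp)
  · intro h
    simp only [sys]
    rw [dif_pos h]

private theorem nd_false {V : Type} [Fintype V] {G : SimpleGraph V} {o : V → ℤ} {c : V → Fin 3} (g : Hf G o) (w : V) :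
    (sys G o c).nd g = (w, false) ↔ g.1.1 = w ∧ ¬ Pl G o g.1.1 g.1.2 := by
  simp [sys]

private theorem nd_true {V : Type} [Fintype V] {G : SimpleGraph V} {o : V → ℤ} {c : V → Fin 3} (g : Hf G o) (w : V) :
    (sys G o c).nd g = (w, true) ↔ g.1.1 = w ∧ Pl G o g.1.1 g.1.2 := by
  simp [sys]

/-- The halves of the minus node of `w = m(z)`, `z` an up vertex. -/
private theorem nd_up {V : Type} [Fintype V] {G : SimpleGraph V} {o : V → ℤ} (h : Good G o) {c : V → Fin 3} {z w : V}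
    (hz : IsUp G o z w) (g : Hf G o) : (sys G o c).nd g = (w, false) ↔ g.1.1 = w ∧ g.1.2 ∈ Px G o w := by
  rw [nd_false]
  constructor
  · rintro ⟨h1, h2⟩
    have h3 := g.2.1
    have h4 := g.2.2
    rw [h1] at h2 h3 h4
    refine ⟨h1, mem_Px.2 ⟨h3, ?_⟩⟩
    rcases lt_trichotomy (o w) (o g.1.2) with h5 | h5 | h5
    · exact absurd (Or.inl ⟨h5, fun h6 => h4 (Or.inl h6)⟩) h2
    · exact absurd (h.inj h5) h3.ne
    · exact h5
  · rintro ⟨h1, h2⟩
    refine ⟨h1, ?_⟩
    rw [h1]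
    rintro (⟨h3, -⟩ | h3)
    · have h4 := (mem_Px.1 h2).2
      omega
    · have h4 := h.up _ _ hz
      have h5 := h3.1
      omega

/-- The halves of the plus node of `w = m(z)`, `z` a down vertex. -/
private theorem nd_dn {V : Type} [Fintype V] {G : SimpleGraph V} {o : V → ℤ} (h : Good G o) {c : V → Fin 3} {z w : V}
    (hz : IsDn G o z w) (g : Hf G o) : (sys G o c).nd g = (w, true) ↔ g.1.1 = w ∧ g.1.2 ∈ Sx G o w := by
  rw [nd_true]
  constructor
  · rintro ⟨h1, h2⟩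
    have h3 := g.2.1
    have h4 := g.2.2
    rw [h1] at h2 h3 h4
    refine ⟨h1, mem_Sx.2 ⟨h3, ?_⟩⟩
    rcases h2 with h2 | h2
    · exact h2.1
    · exact absurd (Or.inr h2) h4
  · rintro ⟨h1, h2⟩
    refine ⟨h1, ?_⟩
    rw [h1]
    refine Or.inl ⟨(mem_Sx.1 h2).2, ?_⟩
    intro h3
    have h4 := h.dn _ _ hz
    have h5 := h3.1
    omega

private theorem fib_up {V : Type} [Fintype V] {G : SimpleGraph V} {o : V → ℤ} (h : Good G o) {c : V → Fin 3} {z w : V}
    (hz : IsUp G o z w) : ((sys G o c).fib (w, false)).card = (Px G o w).card := by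
  refine card_bij (fun (g : Hf G o) _ => g.1.2) ?_ ?_ ?_
  · intro g hg
    exact ((nd_up h hz g).1 ((sys G o c).mem_fib.1 hg)).2
  · intro g hg k hk hgk
    have h1 := ((nd_up h hz g).1 ((sys G o c).mem_fib.1 hg)).1
    have h2 := ((nd_up h hz k).1 ((sys G o c).mem_fib.1 hk)).1
    exact Subtype.ext (Prod.ext (h1.trans h2.symm) hgk)
  · intro x hx
    have h1 := mem_Px.1 hx
    have h2 : ¬ Sp G o w x := by
      rintro (h3 | h3)
      · have h4 := (mem_Sx.1 h3.2.1).2
        have h5 := h1.2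
        omega
      · have h4 := h.up _ _ hz
        have h5 := h3.1
        omega
    exact ⟨⟨(w, x), h1.1, h2⟩, (sys G o c).mem_fib.2 ((nd_up h hz _).2 ⟨rfl, hx⟩), rfl⟩

private theorem fib_dn {V : Type} [Fintype V] {G : SimpleGraph V} {o : V → ℤ} (h : Good G o) {c : V → Fin 3} {z w : V}
    (hz : IsDn G o z w) : ((sys G o c).fib (w, true)).card = (Sx G o w).card := by
  refine card_bij (fun (g : Hf G o) _ => g.1.2) ?_ ?_ ?_
  · intro g hg
    exact ((nd_dn h hz g).1 ((sys G o c).mem_fib.1 hg)).2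
  · intro g hg k hk hgk
    have h1 := ((nd_dn h hz g).1 ((sys G o c).mem_fib.1 hg)).1
    have h2 := ((nd_dn h hz k).1 ((sys G o c).mem_fib.1 hk)).1
    exact Subtype.ext (Prod.ext (h1.trans h2.symm) hgk)
  · intro x hx
    have h1 := mem_Sx.1 hx
    have h2 : ¬ Sp G o w x := by
      rintro (h3 | h3)
      · have h4 := h.dn _ _ hz
        have h5 := h3.1
        omega
      · have h4 := (mem_Px.1 h3.2.1).2
        have h5 := h1.2
        omega
    exact ⟨⟨(w, x), h1.1, h2⟩, (sys G o c).mem_fib.2 ((nd_dn h hz _).2 ⟨rfl, hx⟩), rfl⟩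

theorem f1_tok {V : Type} [Fintype V] {G : SimpleGraph V} {o : V → ℤ} (h : Good G o) (c : V → Fin 3) (y : Hf G o)
    (hy : (sys G o c).F1 y) : F1tok G o y.1.2 := by
  obtain ⟨h1, h2, h3⟩ := hy
  rcases pt_none.1 h1 with hz | hz
  · have h4 : (sys G o c).nd y = (y.1.1, false) :=
      (nd_up h hz y).2 ⟨rfl, mem_Px.2 ⟨y.2.1, (mem_Sx.1 hz.2.1).2⟩⟩
    rw [h4, fib_up h hz] at h2
    refine Or.inl ⟨y.1.1, hz, ?_, h2⟩
    intro v' hv'
    by_contra hne
    have h5 := mem_Sx.1 hv'.2.1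
    refine h3 ⟨(y.1.1, v'), h5.1.symm, Sp.not_symm h (Or.inl hv')⟩ ?_ ?_ ?_
    · rw [h4]
      exact (nd_up h hz _).2 ⟨rfl, mem_Px.2 ⟨h5.1.symm, h5.2⟩⟩
    · intro h6
      apply hne
      rw [← h6]
    · exact pt_none.2 (Or.inl hv')
  · have h4 : (sys G o c).nd y = (y.1.1, true) :=
      (nd_dn h hz y).2 ⟨rfl, mem_Sx.2 ⟨y.2.1, (mem_Px.1 hz.2.1).2⟩⟩
    rw [h4, fib_dn h hz] at h2
    refine Or.inr ⟨y.1.1, hz, ?_, h2⟩
    intro v' hv'
    by_contra hne
    have h5 := mem_Px.1 hv'.2.1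
    refine h3 ⟨(y.1.1, v'), h5.1.symm, Sp.not_symm h (Or.inr hv')⟩ ?_ ?_ ?_
    · rw [h4]
      exact (nd_dn h hz _).2 ⟨rfl, mem_Sx.2 ⟨h5.1.symm, h5.2⟩⟩
    · intro h6
      apply hne
      rw [← h6]
    · exact pt_none.2 (Or.inr hv')

theorem tok_f1 {V : Type} [Fintype V] {G : SimpleGraph V} {o : V → ℤ} (h : Good G o) (c : V → Fin 3) (v : V)
    (hv : F1tok G o v) : ∃ y : Hf G o, y.1.2 = v ∧ (sys G o c).F1 y := by
  rcases hv with ⟨w, hz, h1, h2⟩ | ⟨w, hz, h1, h2⟩
  · have h5 := mem_Sx.1 hz.2.1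
    have h4 : (sys G o c).nd ⟨(w, v), h5.1.symm, Sp.not_symm h (Or.inl hz)⟩ = (w, false) :=
      (nd_up h hz _).2 ⟨rfl, mem_Px.2 ⟨h5.1.symm, h5.2⟩⟩
    refine ⟨⟨(w, v), h5.1.symm, Sp.not_symm h (Or.inl hz)⟩, rfl, pt_none.2 (Or.inl hz), ?_, ?_⟩
    · rw [h4, fib_up h hz]
      exact h2
    · intro k hk hne hp
      rw [h4] at hk
      obtain ⟨h6, h7⟩ := (nd_up h hz k).1 hk
      have h8 := pt_none.1 hp
      rw [h6] at h8
      rcases h8 with h8 | h8
      · exact hne (Subtype.ext (Prod.ext h6 (h1 _ h8)))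
      · have h9 := (mem_Px.1 h8.2.1).2
        have h10 := (mem_Px.1 h7).2
        omega
  · have h5 := mem_Px.1 hz.2.1
    have h4 : (sys G o c).nd ⟨(w, v), h5.1.symm, Sp.not_symm h (Or.inr hz)⟩ = (w, true) :=
      (nd_dn h hz _).2 ⟨rfl, mem_Sx.2 ⟨h5.1.symm, h5.2⟩⟩
    refine ⟨⟨(w, v), h5.1.symm, Sp.not_symm h (Or.inr hz)⟩, rfl, pt_none.2 (Or.inr hz), ?_, ?_⟩
    · rw [h4, fib_dn h hz]
      exact h2
    · intro k hk hne hp
      rw [h4] at hk
      obtain ⟨h6, h7⟩ := (nd_dn h hz k).1 hk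
      have h8 := pt_none.1 hp
      rw [h6] at h8
      rcases h8 with h8 | h8
      · have h9 := (mem_Sx.1 h8.2.1).2
        have h10 := (mem_Sx.1 h7).2
        omega
      · exact hne (Subtype.ext (Prod.ext h6 (h1 _ h8)))

end Pool.Agent.FF
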