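import Pool.Agent.FF.Tok
import Pool.Agent.FF.Hole3
import Pool.Agent.FF.LabA
import Pool.Agent.FF.LabB

/-!
MP_dadc3d_co, FF. The labels.

`exists_cT`. A receiver `y = (w, v)` in `Hf` is determined by `v` (`Sp v w`, `Sp.unique`). Fix any `c0` and let `cl v` be the set of all halves `g` with `Reach y g` (for `sys G o c0`) for a receiver `y` with `y.1.2 = v`
(for example `cl v = {g | ∃ y, y.1.2 = v ∧ (sys G o c0).pt y = none ∧ (sys G o c0).Reach y g}`, `κ = Set (Hf G o)`). `exists_tok` gives `c`. Let `F1 y1`, `F1 y2`, `y1 ≠ y2`, `Reach y1 y2`, `v_i = y_i.1.2`. `F1tok v_i` (`f1_tok`), `v1 ≠ v2` (receivers are determined by `v`), `cl v1 = cl v2` (`Reach` is symmetric by `adj_symm` and transitive). So there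
are `z`, `z'` with `F1tok`, `cl z = cl z' = cl v1`, `c z ≠ c z'`; `tok_f1` gives `F1` halves for them; `cl z = cl v1` gives `Reach y1 z1` (`z1 ∈ cl z`). `r = c`. `Reach` and `F1` do not depend on `c` (`reach_eq`, `f1_eq`).
`exists_lab`. `Sys.col` with `sys_ok` gives `φ`. Let `α x y = c x` if `Sp x y` or not `G.Adj x y`, and `φ (x, y)` otherwise. `edge`: both not special: partners, `Adj`. If `(y, x)` is special then `(x, y)` is not (`Sp.not_symm`), it is a receiver, `φ (x, y) ≠ r (x, y) = c y = α y x`.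
`node`: both not special: the same node. If `(x, y')` is special and `(x, y)` is not: for `IsUp x y'`: not `Pl x y'` (`IsDn x y'` contradicts `Good.not_both`), so not `Pl x y`, so the node of `(x, y)` is `(x, false)`, `|Sx x| = 4`, the list does not contain `c x = α x y'`. For
`IsDn x y'`: `Pl x y'`, so `Pl x y`, node `(x, true)`, `|Px x| = 4`. Both special: `y = y'` by `Sp.unique`.
-/

set_option autoImplicit false

namespace Pool.Agent.FF

open Finset

section

variable {V : Type} [Fintype V] {G : SimpleGraph V} {o : V → ℤ}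

private theorem lab_pt (c : V → Fin 3) (y : Hf G o) : (sys G o c).pt y = none ↔ Sp G o y.1.2 y.1.1 := by
  constructor
  · intro h
    by_contra hn
    have h1 : (sys G o c).pt y = some ⟨(y.1.2, y.1.1), y.2.1.symm, hn⟩ := dif_neg hn
    rw [h] at h1
    exact Option.some_ne_none _ h1.symm
  · intro h
    exact dif_pos h

private theorem lab_recv (h : Good G o) {c : V → Fin 3} {y y' : Hf G o} (h1 : (sys G o c).pt y = none)
    (h2 : (sys G o c).pt y' = none) (he : y.1.2 = y'.1.2) : y = y' := by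
  rw [lab_pt] at h1 h2
  rw [he] at h1
  have h3 : y.1.1 = y'.1.1 := Sp.unique h h1 h2
  exact Subtype.ext (Prod.ext h3 he)

private theorem lab_sub {H N : Type} (A : Sys H N) (h : H) : A.L h ⊆ A.Ln (A.nd h) := by
  unfold Sys.L
  split_ifs
  · exact erase_subset _ _
  · exact Subset.rfl

private theorem lab_r {H N : Type} (A : Sys H N) {h : H} (hp : A.pt h = none) {f : Fin 3} (hf : f ∈ A.L h) :
    f ≠ A.r h := by
  unfold Sys.L at hf
  rw [if_pos hp] at hf
  exact ne_of_mem_erase hf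

/-- The list of the node of a special half does not contain the colour of this half. -/
private theorem lab_ne (h : Good G o) {c : V → Fin 3} {x y y' : V} (h1 : Sp G o x y')
    (hxy : G.Adj x y ∧ ¬ Sp G o x y) (hiff : Pl G o x y ↔ Pl G o x y') {f : Fin 3}
    (hf : f ∈ (sys G o c).L ⟨(x, y), hxy⟩) : f ≠ c x := by
  classical
  have h2 : f ∈ (sys G o c).Ln ((sys G o c).nd ⟨(x, y), hxy⟩) := lab_sub _ _ hf
  have h3 : (sys G o c).Ln ((sys G o c).nd ⟨(x, y), hxy⟩) = univ.erase (c x) := by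
    refine if_pos ?_
    rcases h1 with h1 | h1
    · left
      refine ⟨?_, h1.1⟩
      refine decide_eq_false ?_
      show ¬ Pl G o x y
      rw [hiff]
      rintro (⟨-, h4⟩ | h4)
      · exact h4 h1
      · exact h.not_both h1 h4
    · right
      refine ⟨?_, h1.1⟩
      refine decide_eq_true ?_
      show Pl G o x y
      rw [hiff]
      exact Or.inr h1
  rw [h3] at h2
  exact ne_of_mem_erase h2

end

theorem exists_cT {V : Type} [Fintype V] {G : SimpleGraph V} {o : V → ℤ} (h : Good G o) :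
    ∃ c : V → Fin 3, TokCol G o c ∧ ∀ y1 y2 : Hf G o, (sys G o c).F1 y1 → (sys G o c).F1 y2 → y1 ≠ y2 → (sys G o c).Reach y1 y2 →
      ∃ z1 z2, (sys G o c).F1 z1 ∧ (sys G o c).F1 z2 ∧ (sys G o c).Reach y1 z1 ∧ (sys G o c).Reach y1 z2 ∧ (sys G o c).r z1 ≠ (sys G o c).r z2 := by
  obtain ⟨c0, hc0⟩ : ∃ c0 : V → Fin 3, c0 = fun _ => 0 := ⟨_, rfl⟩
  obtain ⟨cl, hcl⟩ : ∃ cl : V → Set (Hf G o), cl = fun v => {g | ∃ y : Hf G o, y.1.2 = v ∧
    (sys G o c0).pt y = none ∧ (sys G o c0).Reach y g} := ⟨_, rfl⟩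
  obtain ⟨c, hc, hT⟩ := exists_tok h cl
  refine ⟨c, hc, fun y1 y2 h1 h2 hne hr => ?_⟩
  have hA := sys_ok h hc
  have hsymm : ∀ {a b : Hf G o}, (sys G o c).Reach a b → (sys G o c).Reach b a := by
    intro a b hab
    unfold Sys.Reach at hab ⊢
    induction hab with
    | refl => exact Relation.ReflTransGen.refl
    | tail _ hbc ih => exact Relation.ReflTransGen.head (Sys.adj_symm hA hbc) ih
  have hpt : ∀ y : Hf G o, (sys G o c0).pt y = none ↔ (sys G o c).pt y = none := by
    intro y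
    rw [lab_pt, lab_pt]
  have hre : (sys G o c0).Reach = (sys G o c).Reach := reach_eq G o c0 c
  have key : ∀ y : Hf G o, (sys G o c).F1 y → ∀ g, g ∈ cl y.1.2 ↔ (sys G o c).Reach y g := by
    intro y hy g
    rw [hcl]
    constructor
    · rintro ⟨y', h3, h4, h5⟩
      rw [hpt] at h4
      rw [hre] at h5
      have h6 : y' = y := lab_recv h h4 hy.1 h3
      rw [← h6]
      exact h5
    · intro h3
      refine ⟨y, rfl, (hpt y).2 hy.1, ?_⟩
      rw [hre]
      exact h3
  have hv : y1.1.2 ≠ y2.1.2 := fun h3 => hne (lab_recv h h1.1 h2.1 h3)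
  have hcl12 : cl y1.1.2 = cl y2.1.2 := by
    ext g
    rw [key y1 h1, key y2 h2]
    constructor
    · intro h3
      exact (hsymm hr).trans h3
    · intro h3
      exact hr.trans h3
  obtain ⟨z, z', hz, hz', hclz, hclz', hzz⟩ := hT _ _ (f1_tok h c y1 h1) (f1_tok h c y2 h2) hv hcl12
  obtain ⟨w, hw1, hw2⟩ := tok_f1 h c z hz
  obtain ⟨w', hw1', hw2'⟩ := tok_f1 h c z' hz'
  refine ⟨w, w', hw2, hw2', ?_, ?_, ?_⟩
  · rw [← key y1 h1, ← hclz, ← hw1, key w hw2]
    exact Relation.ReflTransGen.refl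
  · rw [← key y1 h1, ← hclz', ← hw1', key w' hw2']
    exact Relation.ReflTransGen.refl
  · show c w.1.2 ≠ c w'.1.2
    rw [hw1, hw1']
    exact hzz

theorem exists_lab {V : Type} [Fintype V] {G : SimpleGraph V} {o : V → ℤ} (h : Good G o) :
    ∃ (c : V → Fin 3) (α : V → V → Fin 3), LabOk G o c α := by
  classical
  obtain ⟨c, hc, hT⟩ := exists_cT h
  have hA := sys_ok h hc
  obtain ⟨φ, hφL, hφ⟩ := Sys.col hA hT
  have hL : ∀ g, φ g ∈ (sys G o c).L g := fun g => hφL g (notMem_empty g)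
  have hN : ∀ g k, (sys G o c).Adj g k → φ g ≠ φ k := fun g k hgk =>
    hφ g k (notMem_empty g) (notMem_empty k) hgk
  obtain ⟨α, hα⟩ : ∃ α : V → V → Fin 3, α = fun x y =>
    if hxy : G.Adj x y ∧ ¬ Sp G o x y then φ ⟨(x, y), hxy⟩ else c x := ⟨_, rfl⟩
  have hα1 : ∀ x y (hxy : G.Adj x y ∧ ¬ Sp G o x y), α x y = φ ⟨(x, y), hxy⟩ := by
    intro x y hxy
    rw [hα]
    exact dif_pos hxy
  have hα2 : ∀ x y, Sp G o x y → α x y = c x := by
    intro x y hxy
    rw [hα]
    exact dif_neg fun h3 => h3.2 hxy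
  -- an edge with a special half
  have hedge : ∀ x y, G.Adj x y → Sp G o x y → α x y ≠ α y x := by
    intro x y hxy hs
    have h1 : G.Adj y x ∧ ¬ Sp G o y x := ⟨hxy.symm, Sp.not_symm h hs⟩
    rw [hα2 x y hs, hα1 y x h1]
    have h2 : (sys G o c).pt ⟨(y, x), h1⟩ = none := (lab_pt c _).2 hs
    exact (lab_r _ h2 (hL ⟨(y, x), h1⟩)).symm
  -- a node with a special half
  have hnode : ∀ x y y', G.Adj x y → y ≠ y' → (Pl G o x y ↔ Pl G o x y') → Sp G o x y' → α x y ≠ α x y' := by
    intro x y y' hxy hne hiff hs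
    have h1 : G.Adj x y ∧ ¬ Sp G o x y := ⟨hxy, fun h3 => hne (Sp.unique h h3 hs)⟩
    rw [hα2 x y' hs, hα1 x y h1]
    exact lab_ne h hs h1 hiff (hL ⟨(x, y), h1⟩)
  refine ⟨c, α, hc, fun v w hv => hα2 v w (Or.inl hv), fun v w hv => hα2 v w (Or.inr hv), ?_, ?_⟩
  · intro x y hxy
    by_cases h1 : Sp G o x y
    · exact hedge x y hxy h1
    · by_cases h2 : Sp G o y x
      · exact (hedge y x hxy.symm h2).symm
      · rw [hα1 x y ⟨hxy, h1⟩, hα1 y x ⟨hxy.symm, h2⟩]
        refine hN _ _ ⟨?_, Or.inr ?_⟩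
        · intro h3
          have h4 : x = y := congrArg (fun g : Hf G o => g.1.1) h3
          exact hxy.ne h4
        · exact dif_neg h2
  · intro x y y' hxy hxy' hne hiff
    by_cases h1 : Sp G o x y'
    · exact hnode x y y' hxy hne hiff h1
    · by_cases h2 : Sp G o x y
      · exact (hnode x y' y hxy' hne.symm hiff.symm h2).symm
      · rw [hα1 x y ⟨hxy, h2⟩, hα1 x y' ⟨hxy', h1⟩]
        refine hN _ _ ⟨?_, Or.inl ?_⟩
        · intro h3
          have h4 : y = y' := congrArg (fun g : Hf G o => g.1.2) h3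
          exact hne h4
        · show (x, decide (Pl G o x y)) = (x, decide (Pl G o x y'))
          rw [decide_eq_decide.2 hiff]

end Pool.Agent.FF
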