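import Pool.Agent.FF.Defs

/-!
MP_dadc3d_co, FF. The labels satisfy (W).

Proof of `no_bad`. Suppose that every `v ∈ W`, `v ≠ w`, has at least two `y ∈ W` with `v ~ y`, `α v y = a` (call this an arc `v → y`). By `LabOk.node` at most one of them is in the plus node (`Pl v y`) and at most one in the minus node, so there is exactly one of each kind:
`v → v⁺ ∈ W` with `Pl v v⁺` and `v → v⁻ ∈ W` with not `Pl v v⁻`. Call `v` up-special if there is `m` with `IsUp v m` and `c v = a` (so `α v m = a`, `m` is not in the plus node, so `v⁻ = m`), and down-special if `IsDn v m` and `c v = a` (then `v⁺ = m`).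
If `v` is not up-special then `o v⁻ < o v` (`¬ Pl v v⁻` gives: not `o v < o v⁻` or `IsUp v v⁻`; the latter would give `c v = α v v⁻ = a`). If `v` is up-special then `o m < o v⁺`: `v⁺` is after `v` (`Pl v v⁺`, `v` is not a down vertex) and different from `m`.
In the same way for down-special.
Claim 1: let `z` be the element of `W \ {w}` which is not up-special with `o z` minimal (if there is one). Then `o w < o z`. Proof: let `y = z⁻`, `o y < o z`. If `y = w` done. Otherwise `y` is up-special by minimality, `m = m(y) = y⁻ ∈ W`. `z` is a neighbour of `y`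
after `y`, and `z ≠ m`, because `α z y = a = α y m` (`LabOk.edge`). So `o m < o z` (`m` is the first neighbour after `y`). If `m = w` done. Otherwise `m` is up-special by minimality, `c m = a = c y`, against `TokCol.u1`.
Claim 1': let `z'` be the element of `W \ {w}` which is not down-special with `o z'` maximal. Then `o z' < o w`. (Symmetric; possibly by applying Claim 1 to `fun x => - o x`, see `Good.neg`, `isUp_neg`; `Pl` is exchanged with its negation for adjacent pairs.)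
No `v ∈ W \ {w}` is neither up-special nor down-special: `o w < o z ≤ o v ≤ o z' < o w`. Not both: `Good.not_both`. So `W \ {w} = A ∪ B`, `A` up-special, `B` down-special, and by Claim 1 (applied: the elements of `B` are not up-special, all have `o` at least
that of the minimal one) `o w < o u` for `u ∈ B`, and `o x < o w` for `x ∈ A`.
For `x ∈ A`, `m = m(x) ∈ W`: `m ∉ A` by `u1`; `m ∉ B` by `Good.up` (`|Px m| ≤ 3`); so `m = w`. `x⁺ ∈ W`, `o m < o x⁺`, so `x⁺ ∈ B`. In the same way for `u ∈ B`: `m(u) = w`, `u⁻ ∈ A`. As `|W| ≥ 2` and `w ∈ W`, `A ∪ B` is not empty; let `x ∈ A` (if only `u ∈ B` is given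
take `x = u⁻`), `u = x⁺ ∈ B`, `x' = u⁻ ∈ A`. `IsUp x w`, `IsUp x' w`, `c x = a = c x'`, so `x = x'` by `u2`. Then `α x u = a = α u x`, against `LabOk.edge`.
`two_le`: the halves at `u` with label `a`: at most one in the plus node, at most one in the minus node.
-/

set_option autoImplicit false

namespace Pool.Agent.FF

open Finset

theorem pl_neg {V : Type} [Fintype V] {G : SimpleGraph V} {o : V → ℤ}
    (hi : Function.Injective o) {x y : V} (hxy : G.Adj x y) :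
    Pl G (fun x => - o x) x y ↔ ¬ Pl G o x y := by
  have hne : o x ≠ o y := fun h => hxy.ne (hi h)
  unfold Pl
  rw [isUp_neg, isDn_neg]
  constructor
  · rintro (⟨h1, h2⟩ | h1)
    · rintro (⟨h3, -⟩ | h3)
      · have h1' : o y < o x := by simpa using h1
        omega
      · exact h2 h3
    · rintro (⟨-, h4⟩ | h3)
      · exact h4 h1
      · have h5 := (mem_Sx.1 h1.2.1).2
        have h6 := (mem_Px.1 h3.2.1).2
        omega
  · intro h
    by_cases hu : IsUp G o x y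
    · exact Or.inr hu
    · refine Or.inl ⟨?_, fun hd => h (Or.inr hd)⟩
      have h1 : ¬ o x < o y := fun hlt => h (Or.inl ⟨hlt, hu⟩)
      show - o x < - o y
      omega

theorem labOk_neg {V : Type} [Fintype V] {G : SimpleGraph V} {o : V → ℤ}
    (hi : Function.Injective o) {c : V → Fin 3} {α : V → V → Fin 3} (hl : LabOk G o c α) :
    LabOk G (fun x => - o x) c α where
  tok :=
    { u1 := fun v w hu hs => by
        rw [Sx_neg] at hs
        exact hl.tok.d1 v w ((isUp_neg G o v w).1 hu) hs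
      d1 := fun v w hu hs => by
        rw [Px_neg] at hs
        exact hl.tok.u1 v w ((isDn_neg G o v w).1 hu) hs
      u2 := fun v v' w h1 h2 hne =>
        hl.tok.d2 v v' w ((isUp_neg G o v w).1 h1) ((isUp_neg G o v' w).1 h2) hne
      d2 := fun v v' w h1 h2 hne =>
        hl.tok.u2 v v' w ((isDn_neg G o v w).1 h1) ((isDn_neg G o v' w).1 h2) hne }
  up := fun v w hu => hl.dn v w ((isUp_neg G o v w).1 hu)
  dn := fun v w hu => hl.up v w ((isDn_neg G o v w).1 hu)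
  edge := hl.edge
  node := fun x y y' h1 h2 hne hiff => hl.node x y y' h1 h2 hne (by
    rw [pl_neg hi h1, pl_neg hi h2] at hiff
    exact not_iff_not.1 hiff)

/-- The special half of an up vertex is in the minus node. -/
theorem not_pl_up {V : Type} [Fintype V] {G : SimpleGraph V} {o : V → ℤ} {x y : V}
    (hu : IsUp G o x y) : ¬ Pl G o x y := by
  rintro (⟨-, h⟩ | h)
  · exact h hu
  · have h5 := (mem_Sx.1 hu.2.1).2
    have h6 := (mem_Px.1 h.2.1).2
    omega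

/-- The minus arc of an up-special vertex goes to `m(v)`. -/
theorem arc_up {V : Type} [Fintype V] {G : SimpleGraph V} {o : V → ℤ} {c : V → Fin 3}
    {α : V → V → Fin 3} (hl : LabOk G o c α) {a : Fin 3} {W : Finset V} {w : V}
    (hM : ∀ v ∈ W, v ≠ w → ∃ p ∈ W, G.Adj v p ∧ α v p = a ∧ ¬ Pl G o v p)
    {y m : V} (hy : y ∈ W) (hyw : y ≠ w) (hm : IsUp G o y m) (hc : c y = a) : m ∈ W := by
  obtain ⟨q, hq, h1, h2, h3⟩ := hM y hy hyw
  by_contra hmW
  have hne : q ≠ m := fun h => hmW (h ▸ hq)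
  have h4 := hl.up y m hm
  exact hl.node y q m h1 (mem_Sx.1 hm.2.1).1 hne
    (iff_of_false h3 (not_pl_up hm)) (by rw [h2, h4, hc])

theorem claim1 {V : Type} [Fintype V] {G : SimpleGraph V} {o : V → ℤ}
    (h : Good G o) {c : V → Fin 3} {α : V → V → Fin 3} (hl : LabOk G o c α) {a : Fin 3}
    {W : Finset V} {w : V}
    (hM : ∀ v ∈ W, v ≠ w → ∃ p ∈ W, G.Adj v p ∧ α v p = a ∧ ¬ Pl G o v p)
    {z : V} (hz : z ∈ W) (hzw : z ≠ w) (hs : ¬ ∃ m, IsUp G o z m ∧ c z = a) : o w < o z := by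
  classical
  obtain ⟨y, hy, hmin⟩ := exists_min_image
    (W.filter fun v => v ≠ w ∧ ¬ ∃ m, IsUp G o v m ∧ c v = a) o
    ⟨z, mem_filter.2 ⟨hz, hzw, hs⟩⟩
  refine lt_of_lt_of_le ?_ (hmin z (mem_filter.2 ⟨hz, hzw, hs⟩))
  clear hz hzw hs
  obtain ⟨hyW, hyw, hys⟩ := mem_filter.1 hy
  -- elements of `W` before `y` are `w` or up-special
  have hbef : ∀ v ∈ W, o v < o y → v ≠ w → ∃ m, IsUp G o v m ∧ c v = a := by
    intro v hv hlt hvw
    by_contra hcon
    have := hmin v (mem_filter.2 ⟨hv, hvw, hcon⟩)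
    omega
  obtain ⟨q, hq, h1, h2, h3⟩ := hM y hyW hyw
  have hqne : o q ≠ o y := fun e => h1.ne (h.inj e).symm
  have hqy : o q < o y := by
    by_contra hcon
    have hlt : o y < o q := by omega
    have hu : IsUp G o y q := by
      by_contra hnu
      exact h3 (Or.inl ⟨hlt, hnu⟩)
    exact hys ⟨q, hu, by rw [← hl.up y q hu, h2]⟩
  by_cases hqw : q = w
  · rw [← hqw]; exact hqy
  obtain ⟨m, hm, hcq⟩ := hbef q hq hqy hqw
  have hmW : m ∈ W := arc_up hl hM hq hqw hm hcq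
  have hmy : m ≠ y := by
    rintro rfl
    have h4 := hl.up q m hm
    exact hl.edge m q h1 (by rw [h2, h4, hcq])
  have hle : o m ≤ o y := hm.2.2 y (mem_Sx.2 ⟨h1.symm, hqy⟩)
  have hmlt : o m < o y := lt_of_le_of_ne hle fun e => hmy (h.inj e)
  by_cases hmw : m = w
  · rw [← hmw]; exact hmlt
  obtain ⟨m', hm', hcm⟩ := hbef m hmW hmlt hmw
  exact absurd (hcq.trans hcm.symm) (hl.tok.u1 q m hm hm'.1)

theorem key {V : Type} [Fintype V] {G : SimpleGraph V} {o : V → ℤ}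
    (h : Good G o) {c : V → Fin 3} {α : V → V → Fin 3} (hl : LabOk G o c α) {a : Fin 3}
    {W : Finset V} {w : V}
    (hP : ∀ v ∈ W, v ≠ w → ∃ p ∈ W, G.Adj v p ∧ α v p = a ∧ Pl G o v p)
    (hM : ∀ v ∈ W, v ≠ w → ∃ p ∈ W, G.Adj v p ∧ α v p = a ∧ ¬ Pl G o v p)
    (hS : ∀ v ∈ W, v ≠ w → (∃ m, IsUp G o v m ∧ c v = a) ∨ (∃ m, IsDn G o v m ∧ c v = a))
    {x m : V} (hx : x ∈ W) (hxw : x ≠ w) (hm : IsUp G o x m) (hc : c x = a) :
    IsUp G o x w ∧ ∃ u ∈ W, u ≠ w ∧ G.Adj x u ∧ α x u = a ∧ o w < o u := by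
  have hmW : m ∈ W := arc_up hl hM hx hxw hm hc
  have hmw : m = w := by
    by_contra hne
    rcases hS m hmW hne with ⟨m', hm', hcm⟩ | ⟨m', hm', -⟩
    · exact hl.tok.u1 x m hm hm'.1 (hc.trans hcm.symm)
    · have h1 := h.up x m hm
      have h2 := hm'.1
      omega
  subst hmw
  refine ⟨hm, ?_⟩
  obtain ⟨u, hu, h1, h2, h3⟩ := hP x hx hxw
  rcases h3 with ⟨h3, h4⟩ | h3
  · have hne : u ≠ m := fun e => h4 (e ▸ hm)
    have hle := hm.2.2 u (mem_Sx.2 ⟨h1, h3⟩)
    exact ⟨u, hu, hne, h1, h2, lt_of_le_of_ne hle fun e => hne (h.inj e).symm⟩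
  · exact (h.not_both hm h3).elim

theorem node_two {V : Type} [Fintype V] {G : SimpleGraph V} {o : V → ℤ} {c : V → Fin 3}
    {α : V → V → Fin 3} (hl : LabOk G o c α) {u y y' : V} {a : Fin 3} (h1 : G.Adj u y)
    (h2 : α u y = a) (h1' : G.Adj u y') (h2' : α u y' = a) (hne : y ≠ y') :
    ¬ (Pl G o u y ↔ Pl G o u y') := fun hiff =>
  hl.node u y y' h1 h1' hne hiff (h2.trans h2'.symm)

theorem two_le {V : Type} [Fintype V] [DecidableEq V] {G : SimpleGraph V} [DecidableRel G.Adj] {o : V → ℤ} {c : V → Fin 3} {α : V → V → Fin 3}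
    (hl : LabOk G o c α) (u : V) (a : Fin 3) : (univ.filter fun v => G.Adj u v ∧ α u v = a).card ≤ 2 := by
  by_contra hcon
  obtain ⟨x, hx, y, hy, z, hz, hxy, hxz, hyz⟩ := two_lt_card.1 (not_le.1 hcon)
  have hx' := (mem_filter.1 hx).2
  have hy' := (mem_filter.1 hy).2
  have hz' := (mem_filter.1 hz).2
  have e1 := node_two hl hx'.1 hx'.2 hy'.1 hy'.2 hxy
  have e2 := node_two hl hx'.1 hx'.2 hz'.1 hz'.2 hxz
  have e3 := node_two hl hy'.1 hy'.2 hz'.1 hz'.2 hyz
  tauto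

theorem no_bad {V : Type} [Fintype V] [DecidableEq V] {G : SimpleGraph V} [DecidableRel G.Adj] {o : V → ℤ} (h : Good G o) {c : V → Fin 3} {α : V → V → Fin 3}
    (hl : LabOk G o c α) (a : Fin 3) (W : Finset V) (w : V) (hw : w ∈ W) (hW : 2 ≤ W.card) :
    ∃ v ∈ W, v ≠ w ∧ (W.filter fun v' => G.Adj v v' ∧ α v v' = a).card ≤ 1 := by
  by_contra hcon
  have hb : ∀ v ∈ W, v ≠ w → ∃ y ∈ W, ∃ y' ∈ W, (G.Adj v y ∧ α v y = a ∧ Pl G o v y) ∧
      (G.Adj v y' ∧ α v y' = a ∧ ¬ Pl G o v y') := by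
    intro v hv hvw
    have hlt : 1 < (W.filter fun v' => G.Adj v v' ∧ α v v' = a).card := by
      by_contra hle
      exact hcon ⟨v, hv, hvw, by omega⟩
    obtain ⟨y, hy, y', hy', hne⟩ := one_lt_card.1 hlt
    obtain ⟨hyW, h1, h2⟩ := mem_filter.1 hy
    obtain ⟨hyW', h1', h2'⟩ := mem_filter.1 hy'
    have e := node_two hl h1 h2 h1' h2' hne
    by_cases hp : Pl G o v y
    · exact ⟨y, hyW, y', hyW', ⟨h1, h2, hp⟩, h1', h2', fun hp' => e (iff_of_true hp hp')⟩
    · have hp' : Pl G o v y' := by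
        by_contra hp'
        exact e (iff_of_false hp hp')
      exact ⟨y', hyW', y, hyW, ⟨h1', h2', hp'⟩, h1, h2, hp⟩
  have hP : ∀ v ∈ W, v ≠ w → ∃ p ∈ W, G.Adj v p ∧ α v p = a ∧ Pl G o v p := by
    intro v hv hvw
    obtain ⟨y, hy, -, -, h1, -⟩ := hb v hv hvw
    exact ⟨y, hy, h1⟩
  have hM : ∀ v ∈ W, v ≠ w → ∃ p ∈ W, G.Adj v p ∧ α v p = a ∧ ¬ Pl G o v p := by
    intro v hv hvw
    obtain ⟨-, -, y, hy, -, h1⟩ := hb v hv hvw
    exact ⟨y, hy, h1⟩
  have hP' : ∀ v ∈ W, v ≠ w →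
      ∃ p ∈ W, G.Adj v p ∧ α v p = a ∧ Pl G (fun x => - o x) v p := by
    intro v hv hvw
    obtain ⟨y, hy, h1, h2, h3⟩ := hM v hv hvw
    exact ⟨y, hy, h1, h2, (pl_neg h.inj h1).2 h3⟩
  have hM' : ∀ v ∈ W, v ≠ w →
      ∃ p ∈ W, G.Adj v p ∧ α v p = a ∧ ¬ Pl G (fun x => - o x) v p := by
    intro v hv hvw
    obtain ⟨y, hy, h1, h2, h3⟩ := hP v hv hvw
    exact ⟨y, hy, h1, h2, fun h4 => (pl_neg h.inj h1).1 h4 h3⟩
  have hl' := labOk_neg h.inj hl
  have c1 : ∀ z ∈ W, z ≠ w → (¬ ∃ m, IsUp G o z m ∧ c z = a) → o w < o z :=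
    fun z hz hzw hs => claim1 h hl hM hz hzw hs
  have c2 : ∀ z ∈ W, z ≠ w → (¬ ∃ m, IsDn G o z m ∧ c z = a) → o z < o w := by
    intro z hz hzw hs
    have h1 := claim1 h.neg hl' hM' hz hzw (by
      rintro ⟨m, hm, hc⟩
      exact hs ⟨m, (isUp_neg G o z m).1 hm, hc⟩)
    have h2 : - o w < - o z := h1
    omega
  have hS : ∀ v ∈ W, v ≠ w →
      (∃ m, IsUp G o v m ∧ c v = a) ∨ (∃ m, IsDn G o v m ∧ c v = a) := by
    intro v hv hvw
    by_contra hno
    rw [not_or] at hno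
    have h1 := c1 v hv hvw hno.1
    have h2 := c2 v hv hvw hno.2
    omega
  have hS' : ∀ v ∈ W, v ≠ w → (∃ m, IsUp G (fun x => - o x) v m ∧ c v = a) ∨
      (∃ m, IsDn G (fun x => - o x) v m ∧ c v = a) := by
    intro v hv hvw
    rcases hS v hv hvw with ⟨m, hm, hc⟩ | ⟨m, hm, hc⟩
    · exact Or.inr ⟨m, (isDn_neg G o v m).2 hm, hc⟩
    · exact Or.inl ⟨m, (isUp_neg G o v m).2 hm, hc⟩
  have k1 : ∀ x ∈ W, x ≠ w → (∃ m, IsUp G o x m ∧ c x = a) →
      IsUp G o x w ∧ ∃ u ∈ W, u ≠ w ∧ G.Adj x u ∧ α x u = a ∧ o w < o u := by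
    rintro x hx hxw ⟨m, hm, hc⟩
    exact key h hl hP hM hS hx hxw hm hc
  have k2 : ∀ x ∈ W, x ≠ w → (∃ m, IsDn G o x m ∧ c x = a) →
      ∃ u ∈ W, u ≠ w ∧ G.Adj x u ∧ α x u = a ∧ o u < o w := by
    rintro x hx hxw ⟨m, hm, hc⟩
    obtain ⟨-, u, hu, h1, h2, h3, h4⟩ :=
      key h.neg hl' hP' hM' hS' hx hxw ((isUp_neg G o x m).2 hm) hc
    have h5 : - o w < - o u := h4
    exact ⟨u, hu, h1, h2, h3, by omega⟩
  -- vertices before `w` are up-special, vertices after `w` are down-special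
  have hup : ∀ v ∈ W, v ≠ w → o v < o w → ∃ m, IsUp G o v m ∧ c v = a := by
    intro v hv hvw hlt
    by_contra hno
    have := c1 v hv hvw hno
    omega
  have hdn : ∀ v ∈ W, v ≠ w → o w < o v → ∃ m, IsDn G o v m ∧ c v = a := by
    intro v hv hvw hlt
    by_contra hno
    have := c2 v hv hvw hno
    omega
  obtain ⟨v, hv, hvw⟩ := exists_mem_ne (by omega : 1 < W.card) w
  obtain ⟨x, hx, hxw, hxs⟩ : ∃ x ∈ W, x ≠ w ∧ ∃ m, IsUp G o x m ∧ c x = a := by
    rcases hS v hv hvw with hu | hd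
    · exact ⟨v, hv, hvw, hu⟩
    · obtain ⟨u, hu, h1, -, -, h4⟩ := k2 v hv hvw hd
      exact ⟨u, hu, h1, hup u hu h1 h4⟩
  obtain ⟨hxu, u, hu, huw, hadj, hαx, hlt⟩ := k1 x hx hxw hxs
  obtain ⟨x', hx', hxw', hadj', hαu, hlt'⟩ := k2 u hu huw (hdn u hu huw hlt)
  obtain hxs' := hup x' hx' hxw' hlt'
  obtain ⟨hxu', -⟩ := k1 x' hx' hxw' hxs'
  obtain ⟨-, -, hcx⟩ := hxs
  obtain ⟨-, -, hcx'⟩ := hxs'
  have hxx : x = x' := by
    by_contra hne
    exact hl.tok.u2 x x' w hxu hxu' hne (hcx.trans hcx'.symm)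
  subst hxx
  exact hl.edge x u hadj (hαx.trans hαu.symm)

end Pool.Agent.FF
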