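import Pool.Agent.FF.Ord
import Pool.Agent.FF.Lab
import Pool.Agent.FF.Win

/-!
MP_dadc3d_co, FF. The labels for a graph with an order as in the theorem.

`o v` = the number of the vertices before `v` (as an integer); `v < w ↔ o v < o w`. Then `exists_good`, `exists_lab`, `two_le`, `no_bad`. (`Sx`, `Px` for this `o` are the filters in the hypotheses, `|Sx v| + |Px v| ≤ degree v`.)
-/

set_option autoImplicit false

namespace Pool.Agent.FF

open Finset

theorem labels {V : Type} [Fintype V] [LinearOrder V] (G : SimpleGraph V) [DecidableRel G.Adj] (hd : ∀ v, G.degree v ≤ 6)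
    (hp : ∀ v, (univ.filter fun w => G.Adj v w ∧ w < v).card ≤ 4)
    (hs : ∀ v, (univ.filter fun w => G.Adj v w ∧ v < w).card ≤ 4) :
    ∃ α : V → V → Fin 3, (∀ u v, G.Adj u v → α u v ≠ α v u) ∧
      (∀ u a, (univ.filter fun v => G.Adj u v ∧ α u v = a).card ≤ 2) ∧
      ∀ (a : Fin 3) (W : Finset V) (w : V), w ∈ W → 2 ≤ W.card →
        ∃ v ∈ W, v ≠ w ∧ (W.filter fun v' => G.Adj v v' ∧ α v v' = a).card ≤ 1 := by
  classical
  obtain ⟨o, ho⟩ : ∃ o : V → ℤ, ∀ v w, o v < o w ↔ v < w := by
    refine ⟨fun v => ((univ.filter fun x => x < v).card : ℤ), fun v w => ?_⟩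
    have key : ∀ v w : V, v < w → (univ.filter fun x => x < v).card < (univ.filter fun x => x < w).card := by
      intro v w h
      refine card_lt_card ?_
      rw [ssubset_iff_of_subset]
      · refine ⟨v, ?_, ?_⟩
        · rw [mem_filter]
          exact ⟨mem_univ _, h⟩
        · rw [mem_filter]
          exact fun h2 => lt_irrefl _ h2.2
      · intro x hx
        rw [mem_filter] at hx ⊢
        exact ⟨hx.1, hx.2.trans h⟩
    constructor
    · intro h
      have h1 : (univ.filter fun x => x < v).card < (univ.filter fun x => x < w).card := by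
        have h0 : ((univ.filter fun x => x < v).card : ℤ) < ((univ.filter fun x => x < w).card : ℤ) := h
        exact_mod_cast h0
      by_contra h2
      rcases (not_lt.1 h2).lt_or_eq with h3 | h3
      · have := key w v h3
        omega
      · rw [h3] at h1
        omega
    · intro h
      have := key v w h
      show ((univ.filter fun x => x < v).card : ℤ) < ((univ.filter fun x => x < w).card : ℤ)
      exact_mod_cast this
  have hi : Function.Injective o := by
    intro x y hxy
    rcases lt_trichotomy x y with h | h | h
    · have := (ho x y).2 h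
      omega
    · exact h
    · have := (ho y x).2 h
      omega
  have hS : ∀ v, (Sx G o v).card ≤ 4 := by
    intro v
    refine (card_le_card ?_).trans (hs v)
    intro y hy
    rw [mem_Sx, ho] at hy
    rw [mem_filter]
    exact ⟨mem_univ _, hy⟩
  have hP : ∀ v, (Px G o v).card ≤ 4 := by
    intro v
    refine (card_le_card ?_).trans (hp v)
    intro y hy
    rw [mem_Px, ho] at hy
    rw [mem_filter]
    exact ⟨mem_univ _, hy⟩
  have h6 : ∀ v, (Sx G o v).card + (Px G o v).card ≤ 6 := by
    intro v
    rw [← card_union_of_disjoint]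
    · refine (card_le_card ?_).trans (hd v)
      intro y hy
      rw [SimpleGraph.mem_neighborFinset]
      rcases mem_union.1 hy with h | h
      · exact (mem_Sx.1 h).1
      · exact (mem_Px.1 h).1
    · rw [disjoint_left]
      intro y h1 h2
      have h3 := (mem_Sx.1 h1).2
      have h4 := (mem_Px.1 h2).2
      omega
  obtain ⟨o', hg⟩ := exists_good G o hi hS hP h6
  obtain ⟨c, α, hl⟩ := exists_lab hg
  refine ⟨α, hl.edge, fun u a => two_le hl u a, fun a W w hw hW => ?_⟩
  exact no_bad hg hl a W w hw hW

end Pool.Agent.FF
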