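import Pool.Agent.FF.Defs

/-!
MP_dadc3d_co, FF. Existence of a good order.

Proof. Among all injective `o : V → ℤ` with `s4`, `p4`, `d6` choose one for which the number of the vertices `v` with `|Sx v| = 4` plus the number of those with `|Px v| = 4` is
minimal (it exists: `WellFounded.min`, `Nat.find` or strong induction on this number). Claim: `up` holds. Let `IsUp G o v w` and suppose that `|Px w| = 4` (not `≤ 3`). Let `o' x = 2 * o x` for `x ≠ v` and
`o' v = 2 * o w + 1` (`v` is moved to just after `w`). It is injective. The order of adjacent `x`, `y` changes only for the pair `v`, `w`: for `x ~ v`, `x ≠ w`: if `o x < o v` then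
`2 o x < 2 o w + 1`, and if `o v < o x` then `o w < o x` (`w` is the first neighbour after `v`, `o` is injective), so `2 o w + 1 < 2 o x`. So `Sx' v = Sx v \ {w}` (3 elements), `Px' v = Px v ∪ {w}`
(at most `2 + 1` elements by `d6`), `Px' w = Px w \ {v}` (3 elements), `Sx' w = Sx w ∪ {v}` (at most `2 + 1`), and `Sx' x = Sx x`, `Px' x = Px x` for `x ≠ v, w`. So `o'` satisfies the
conditions and `v`, `w` are not counted any more: the number has decreased by two, a contradiction. `dn` follows by applying the same to `fun x => - o x` (`Sx_neg`, `Px_neg`, `isUp_neg`;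
the number is the same). It is convenient to state the moving step as a lemma for `o` and to use it for `o` and for `- o`.
-/

set_option autoImplicit false

namespace Pool.Agent.FF

open Finset

section

variable {V : Type} [Fintype V]

/-- The number of up vertices plus the number of down vertices. -/
private noncomputable def cnt (G : SimpleGraph V) (o : V → ℤ) : ℕ :=
  (univ.filter fun v => (Sx G o v).card = 4).card + (univ.filter fun v => (Px G o v).card = 4).card

private theorem cnt_neg (G : SimpleGraph V) (o : V → ℤ) : cnt G (fun x => - o x) = cnt G o := by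
  unfold cnt
  simp only [Sx_neg, Px_neg]
  exact add_comm _ _

private theorem move {G : SimpleGraph V} {o : V → ℤ} (hi : Function.Injective o)
    (s4 : ∀ v, (Sx G o v).card ≤ 4) (p4 : ∀ v, (Px G o v).card ≤ 4)
    (d6 : ∀ v, (Sx G o v).card + (Px G o v).card ≤ 6) {v w : V} (hu : IsUp G o v w)
    (hp : (Px G o w).card = 4) :
    ∃ o' : V → ℤ, Function.Injective o' ∧ (∀ v, (Sx G o' v).card ≤ 4) ∧
      (∀ v, (Px G o' v).card ≤ 4) ∧ (∀ v, (Sx G o' v).card + (Px G o' v).card ≤ 6) ∧
      cnt G o' < cnt G o := by
  classical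
  obtain ⟨hS, hw, hmin⟩ := hu
  obtain ⟨hvw, hlt⟩ := mem_Sx.1 hw
  have hne : w ≠ v := by
    rintro rfl
    exact lt_irrefl _ hlt
  set o' : V → ℤ := fun x => if x = v then 2 * o w + 1 else 2 * o x with ho'
  have ov : o' v = 2 * o w + 1 := by simp [ho']
  have ox : ∀ x, x ≠ v → o' x = 2 * o x := fun x hx => by simp [ho', hx]
  have hi' : Function.Injective o' := by
    intro x y hxy
    by_cases hx : x = v
    · by_cases hy : y = v
      · rw [hx, hy]
      · exfalso
        rw [hx, ov, ox y hy] at hxy
        omega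
    · by_cases hy : y = v
      · exfalso
        rw [hy, ov, ox x hx] at hxy
        omega
      · rw [ox x hx, ox y hy] at hxy
        exact hi (by omega)
  -- comparison of `v` with its neighbours different from `w`
  have cv : ∀ y, G.Adj v y → y ≠ w → ((o' v < o' y ↔ o v < o y) ∧ (o' y < o' v ↔ o y < o v)) := by
    intro y hy hyw
    have hyv : y ≠ v := fun h => G.loopless.irrefl v (h ▸ hy)
    rw [ov, ox y hyv]
    have h1 : o y ≠ o v := fun h => hyv (hi h)
    have h2 : o y ≠ o w := fun h => hyw (hi h)
    have h3 : o v < o y → o w ≤ o y := fun h => hmin y (mem_Sx.2 ⟨hy, h⟩)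
    constructor
    · constructor
      · intro h; omega
      · intro h
        have := h3 h
        omega
    · constructor
      · intro h
        by_contra h4
        have := h3 (by omega)
        omega
      · intro h; omega
  have c0 : ∀ x y, x ≠ v → y ≠ v → (o' x < o' y ↔ o x < o y) := by
    intro x y hx hy
    rw [ox x hx, ox y hy]
    constructor <;> intro h <;> omega
  have cw : o' w < o' v := by
    rw [ov, ox w hne]
    omega
  have eSv : Sx G o' v = (Sx G o v).erase w := by
    ext y
    rw [mem_erase, mem_Sx, mem_Sx]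
    by_cases hyw : y = w
    · subst hyw
      constructor
      · rintro ⟨_, h⟩
        exact absurd h (not_lt.2 cw.le)
      · rintro ⟨h, _⟩
        exact absurd rfl h
    · constructor
      · rintro ⟨h1, h2⟩
        exact ⟨hyw, h1, (cv y h1 hyw).1.1 h2⟩
      · rintro ⟨_, h1, h2⟩
        exact ⟨h1, (cv y h1 hyw).1.2 h2⟩
  have ePv : Px G o' v = insert w (Px G o v) := by
    ext y
    rw [mem_insert, mem_Px, mem_Px]
    by_cases hyw : y = w
    · subst hyw
      exact ⟨fun _ => Or.inl rfl, fun _ => ⟨hvw, cw⟩⟩
    · constructor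
      · rintro ⟨h1, h2⟩
        exact Or.inr ⟨h1, (cv y h1 hyw).2.1 h2⟩
      · rintro (h | ⟨h1, h2⟩)
        · exact absurd h hyw
        · exact ⟨h1, (cv y h1 hyw).2.2 h2⟩
  have ePw : Px G o' w = (Px G o w).erase v := by
    ext y
    rw [mem_erase, mem_Px, mem_Px]
    by_cases hyv : y = v
    · subst hyv
      constructor
      · rintro ⟨_, h⟩
        exact absurd h (not_lt.2 cw.le)
      · rintro ⟨h, _⟩
        exact absurd rfl h
    · rw [c0 y w hyv hne]
      exact ⟨fun h => ⟨hyv, h⟩, fun h => h.2⟩
  have eSw : Sx G o' w = insert v (Sx G o w) := by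
    ext y
    rw [mem_insert, mem_Sx, mem_Sx]
    by_cases hyv : y = v
    · subst hyv
      exact ⟨fun _ => Or.inl rfl, fun _ => ⟨hvw.symm, cw⟩⟩
    · rw [c0 w y hne hyv]
      constructor
      · intro h
        exact Or.inr h
      · rintro (h | h)
        · exact absurd h hyv
        · exact h
  have eS : ∀ x, x ≠ v → x ≠ w → Sx G o' x = Sx G o x := by
    intro x hxv hxw
    ext y
    rw [mem_Sx, mem_Sx]
    by_cases hyv : y = v
    · subst hyv
      constructor
      · rintro ⟨h1, h2⟩
        exact ⟨h1, (cv x h1.symm hxw).2.1 h2⟩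
      · rintro ⟨h1, h2⟩
        exact ⟨h1, (cv x h1.symm hxw).2.2 h2⟩
    · rw [c0 x y hxv hyv]
  have eP : ∀ x, x ≠ v → x ≠ w → Px G o' x = Px G o x := by
    intro x hxv hxw
    ext y
    rw [mem_Px, mem_Px]
    by_cases hyv : y = v
    · subst hyv
      constructor
      · rintro ⟨h1, h2⟩
        exact ⟨h1, (cv x h1.symm hxw).1.1 h2⟩
      · rintro ⟨h1, h2⟩
        exact ⟨h1, (cv x h1.symm hxw).1.2 h2⟩
    · rw [c0 y x hyv hxv]
  have kSv : (Sx G o' v).card = 3 := by
    rw [eSv, card_erase_of_mem hw, hS]
  have kPv : (Px G o' v).card ≤ (Px G o v).card + 1 := by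
    rw [ePv]
    exact card_insert_le _ _
  have hvP : v ∈ Px G o w := mem_Px.2 ⟨hvw.symm, hlt⟩
  have kPw : (Px G o' w).card = 3 := by
    rw [ePw, card_erase_of_mem hvP, hp]
  have kSw : (Sx G o' w).card ≤ (Sx G o w).card + 1 := by
    rw [eSw]
    exact card_insert_le _ _
  have d6v := d6 v
  have d6w := d6 w
  refine ⟨o', hi', ?_, ?_, ?_, ?_⟩
  · intro x
    by_cases hxv : x = v
    · rw [hxv]; omega
    · by_cases hxw : x = w
      · rw [hxw]; omega
      · rw [eS x hxv hxw]; exact s4 x
  · intro x
    by_cases hxv : x = v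
    · rw [hxv]; omega
    · by_cases hxw : x = w
      · rw [hxw]; omega
      · rw [eP x hxv hxw]; exact p4 x
  · intro x
    by_cases hxv : x = v
    · rw [hxv]; omega
    · by_cases hxw : x = w
      · rw [hxw]; omega
      · rw [eS x hxv hxw, eP x hxv hxw]; exact d6 x
  · unfold cnt
    refine add_lt_add_of_lt_of_le (card_lt_card ?_) (card_le_card ?_)
    · rw [ssubset_iff_of_subset]
      · refine ⟨v, by simp [hS], ?_⟩
        rw [mem_filter]
        rintro ⟨_, h⟩
        omega
      · intro x hx
        rw [mem_filter] at hx ⊢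
        refine ⟨hx.1, ?_⟩
        by_cases hxv : x = v
        · rw [hxv]; exact hS
        · by_cases hxw : x = w
          · have := hx.2
            rw [hxw] at this
            omega
          · rw [← eS x hxv hxw]; exact hx.2
    · intro x hx
      rw [mem_filter] at hx ⊢
      refine ⟨hx.1, ?_⟩
      by_cases hxv : x = v
      · have := hx.2
        rw [hxv] at this
        omega
      · by_cases hxw : x = w
        · rw [hxw]; exact hp
        · rw [← eP x hxv hxw]; exact hx.2

private theorem good_of (G : SimpleGraph V) : ∀ (n : ℕ) (o : V → ℤ), Function.Injective o →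
    (∀ v, (Sx G o v).card ≤ 4) → (∀ v, (Px G o v).card ≤ 4) →
    (∀ v, (Sx G o v).card + (Px G o v).card ≤ 6) → cnt G o ≤ n → ∃ o' : V → ℤ, Good G o' := by
  intro n
  induction n with
  | zero =>
    intro o hi s4 p4 d6 hn
    by_cases hup : ∀ v w, IsUp G o v w → (Px G o w).card ≤ 3
    · by_cases hdn : ∀ v w, IsDn G o v w → (Sx G o w).card ≤ 3
      · exact ⟨o, hi, s4, p4, d6, hup, hdn⟩
      · push Not at hdn
        obtain ⟨v, w, h1, h2⟩ := hdn
        obtain ⟨o', -, -, -, -, h⟩ := move (G := G) (o := fun x => - o x)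
          (fun x y hxy => hi (neg_injective hxy)) (fun x => by rw [Sx_neg]; exact p4 x)
          (fun x => by rw [Px_neg]; exact s4 x)
          (fun x => by rw [Sx_neg, Px_neg, add_comm]; exact d6 x) ((isUp_neg G o v w).2 h1)
          (by rw [Px_neg]; have := s4 w; omega)
        rw [cnt_neg] at h
        omega
    · push Not at hup
      obtain ⟨v, w, h1, h2⟩ := hup
      obtain ⟨o', -, -, -, -, h⟩ := move hi s4 p4 d6 h1 (by have := p4 w; omega)
      omega
  | succ n ih =>
    intro o hi s4 p4 d6 hn
    by_cases hup : ∀ v w, IsUp G o v w → (Px G o w).card ≤ 3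
    · by_cases hdn : ∀ v w, IsDn G o v w → (Sx G o w).card ≤ 3
      · exact ⟨o, hi, s4, p4, d6, hup, hdn⟩
      · push Not at hdn
        obtain ⟨v, w, h1, h2⟩ := hdn
        obtain ⟨o', a1, a2, a3, a4, h⟩ := move (G := G) (o := fun x => - o x)
          (fun x y hxy => hi (neg_injective hxy)) (fun x => by rw [Sx_neg]; exact p4 x)
          (fun x => by rw [Px_neg]; exact s4 x)
          (fun x => by rw [Sx_neg, Px_neg, add_comm]; exact d6 x) ((isUp_neg G o v w).2 h1)
          (by rw [Px_neg]; have := s4 w; omega)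
        rw [cnt_neg] at h
        exact ih o' a1 a2 a3 a4 (by omega)
    · push Not at hup
      obtain ⟨v, w, h1, h2⟩ := hup
      obtain ⟨o', a1, a2, a3, a4, h⟩ := move hi s4 p4 d6 h1 (by have := p4 w; omega)
      exact ih o' a1 a2 a3 a4 (by omega)

end

theorem exists_good {V : Type} [Fintype V] (G : SimpleGraph V) (o : V → ℤ) (hi : Function.Injective o)
    (s4 : ∀ v, (Sx G o v).card ≤ 4) (p4 : ∀ v, (Px G o v).card ≤ 4)
    (d6 : ∀ v, (Sx G o v).card + (Px G o v).card ≤ 6) : ∃ o' : V → ℤ, Good G o' :=
  good_of G _ o hi s4 p4 d6 le_rfl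

end Pool.Agent.FF
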