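import Pool.Agent.FF.Defs

/-!
MP_dadc3d_co, FF. The system of the halves of a graph.
-/

set_option autoImplicit false

namespace Pool.Agent.FF

open Finset

variable {V : Type} [Fintype V]

/-- `(x, y)` is a special half: `y = m(x)`. -/
def Sp (G : SimpleGraph V) (o : V → ℤ) (x y : V) : Prop := IsUp G o x y ∨ IsDn G o x y

/-- The halves which are not special. -/
def Hf (G : SimpleGraph V) (o : V → ℤ) : Type := {p : V × V // G.Adj p.1 p.2 ∧ ¬ Sp G o p.1 p.2}

noncomputable instance (G : SimpleGraph V) (o : V → ℤ) : Fintype (Hf G o) := by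
  classical
  unfold Hf
  infer_instance

open Classical in
/-- The system of the halves of a graph. -/
noncomputable def sys (G : SimpleGraph V) (o : V → ℤ) (c : V → Fin 3) : Sys (Hf G o) (V × Bool) where
  nd h := (h.1.1, decide (Pl G o h.1.1 h.1.2))
  pt h := if hs : Sp G o h.1.2 h.1.1 then none else some ⟨(h.1.2, h.1.1), h.2.1.symm, hs⟩
  Ln n := if (n.2 = false ∧ (Sx G o n.1).card = 4) ∨ (n.2 = true ∧ (Px G o n.1).card = 4) then
    univ.erase (c n.1) else univ
  r h := c h.1.2

theorem reach_eq (G : SimpleGraph V) (o : V → ℤ) (c c' : V → Fin 3) :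
    (sys G o c).Reach = (sys G o c').Reach := rfl

theorem f1_eq (G : SimpleGraph V) (o : V → ℤ) (c c' : V → Fin 3) :
    (sys G o c).F1 = (sys G o c').F1 := rfl

theorem Sp.unique {G : SimpleGraph V} {o : V → ℤ} (h : Good G o) {x y y' : V} (h1 : Sp G o x y) (h2 : Sp G o x y') : y = y' := by
  rcases h1 with h1 | h1 <;> rcases h2 with h2 | h2
  · exact isUp_unique h.inj h1 h2
  · exact (h.not_both h1 h2).elim
  · exact (h.not_both h2 h1).elim
  · exact isDn_unique h.inj h1 h2

theorem Sp.not_symm {G : SimpleGraph V} {o : V → ℤ} (h : Good G o) {x y : V} (h1 : Sp G o x y) : ¬ Sp G o y x := by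
  intro h2
  rcases h1 with h1 | h1 <;> rcases h2 with h2 | h2
  · have a := (mem_Sx.1 h1.2.1).2
    have b := (mem_Sx.1 h2.2.1).2
    omega
  · have a := h.up _ _ h1
    have b := h2.1
    omega
  · have a := h.dn _ _ h1
    have b := h2.1
    omega
  · have a := (mem_Px.1 h1.2.1).2
    have b := (mem_Px.1 h2.2.1).2
    omega

end Pool.Agent.FF
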