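import Pool.Agent.FF.Greedy

/-!
MP_dadc3d_co, FF. The colours of the tokens.

Proof. Tokens are the `v` with `|Sx v| = 4` (up tokens) or `|Px v| = 4` (down tokens), not both (`Good.not_both`). For an up token `v` let `w = m(v)` (`IsUp G o v w`, unique by `isUp_unique`).
Partners: for every class `k` of `cl` which contains at least two tokens of type `F1tok` choose two of them (by choice), and let `P v v'` (symmetric) mean that `{v, v'}` is the pair chosen for the class
`cl v = cl v'`. So every `v` has at most one partner, and only if `F1tok v`.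
Apply `greedy` with `R v y`: (parent) `IsUp v y ∧ |Sx y| = 4`, or `IsUp y v ∧ |Sx v| = 4`, or the same with `IsDn`, `Px`; (sibling) `v ≠ y` and `IsUp v w`, `IsUp y w` for some `w`, or the same with `IsDn`;
(partner) `P v y`. Rank: `ρ v = - o v - K` if `|Sx v| = 4`, and `o v + K` otherwise, where `K` is larger than all `|o x|`; so up tokens have negative rank and down tokens positive rank, it is injective on the tokens.
`R` holds only between tokens `x ≠ y`.
The earlier neighbours (`ρ y < ρ v`) of an up token `v` with `w = m(v)`: the parent `w` if `|Sx w| = 4`; siblings: members of `M = {y : IsUp y w}` other than `v`; possibly a partner. Children (`IsUp y v`) have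
`o y < o v` and are later. `M ⊆ Px w`. If `F1tok v`: `M = {v}` (`v` is not a down token, so the first alternative of `F1tok` holds, with the same `w`): at most parent and partner. If not `F1tok v`: no partner; if `|Sx w| = 4` then
`|Px w| ≤ 2` by `d6`, so parent and at most one sibling; otherwise `|Px w| ≤ 3` by `Good.up`, so at most two siblings and no parent. For a down token in the same way (children `IsDn y v` have `o y > o v`);
one can use `Good.neg` and `isUp_neg` for some of the statements. Tokens of different kinds are related only as partners (for `IsUp v w`, `w` is not a down token by `Good.up`).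
The last clause: if `F1tok v`, `F1tok v'`, `v ≠ v'`, `cl v = cl v'` then the class has a chosen pair `z, z'`, and `c z ≠ c z'`.
-/

set_option autoImplicit false

namespace Pool.Agent.FF

open Finset

/-- The chosen pairs. -/
private theorem Tok_pair {V κ : Type} (F : V → Prop) (cl : V → κ) :
    ∃ P : V → V → Prop, (∀ v y, P v y → P y v) ∧
      (∀ v y, P v y → F v ∧ F y ∧ v ≠ y ∧ cl v = cl y) ∧
      (∀ v y y', P v y → P v y' → y = y') ∧
      (∀ v v', F v → F v' → v ≠ v' → cl v = cl v' → ∃ z z', P z z' ∧ cl z = cl v) := by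
  classical
  have h : ∀ k : κ, ∃ Q : V → V → Prop, (∀ v y, Q v y → Q y v) ∧
      (∀ v y, Q v y → F v ∧ F y ∧ v ≠ y ∧ cl v = k ∧ cl y = k) ∧
      (∀ v y y', Q v y → Q v y' → y = y') ∧
      (∀ v v', F v → F v' → v ≠ v' → cl v = k → cl v' = k → ∃ z z', Q z z') := by
    intro k
    by_cases hk : ∃ z z' : V, F z ∧ F z' ∧ z ≠ z' ∧ cl z = k ∧ cl z' = k
    · obtain ⟨z, z', h1, h2, h3, h4, h5⟩ := hk
      refine ⟨fun a b => (a = z ∧ b = z') ∨ (a = z' ∧ b = z), ?_, ?_, ?_, ?_⟩
      · rintro v y (⟨hv, hy⟩ | ⟨hv, hy⟩)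
        · exact Or.inr ⟨hy, hv⟩
        · exact Or.inl ⟨hy, hv⟩
      · rintro v y (⟨hv, hy⟩ | ⟨hv, hy⟩)
        · rw [hv, hy]
          exact ⟨h1, h2, h3, h4, h5⟩
        · rw [hv, hy]
          exact ⟨h2, h1, h3.symm, h5, h4⟩
      · rintro v y y' (⟨hv, hy⟩ | ⟨hv, hy⟩) (⟨hv', hy'⟩ | ⟨hv', hy'⟩)
        · rw [hy, hy']
        · exact (h3 (hv.symm.trans hv')).elim
        · exact (h3 (hv'.symm.trans hv)).elim
        · rw [hy, hy']
      · intro _ _ _ _ _ _ _
        exact ⟨z, z', Or.inl ⟨rfl, rfl⟩⟩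
    · refine ⟨fun _ _ => False, fun _ _ h => h, fun _ _ h => h.elim, fun _ _ _ h => h.elim, ?_⟩
      intro v v' h1 h2 h3 h4 h5
      exact (hk ⟨v, v', h1, h2, h3, h4, h5⟩).elim
  choose Q h1 h2 h3 h4 using h
  refine ⟨fun v y => Q (cl v) v y, ?_, ?_, ?_, ?_⟩
  · intro v y hq
    have h5 := h2 _ _ _ hq
    have h6 := h1 _ _ _ hq
    show Q (cl y) y v
    rw [h5.2.2.2.2]
    exact h6
  · intro v y hq
    have h5 := h2 _ _ _ hq
    exact ⟨h5.1, h5.2.1, h5.2.2.1, h5.2.2.2.2.symm⟩
  · intro v y y' hq hq'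
    exact h3 _ _ _ _ hq hq'
  · intro v v' a b c d
    obtain ⟨z, z', hz⟩ := h4 (cl v) v v' a b c rfl d.symm
    have h5 := h2 _ _ _ hz
    refine ⟨z, z', ?_, h5.2.2.2.1⟩
    show Q (cl z) z z'
    rw [h5.2.2.2.1]
    exact hz

/-- The earlier neighbours of an up token. -/
private theorem Tok_cnt {V : Type} [Fintype V] {G : SimpleGraph V} {o : V → ℤ} (h : Good G o) {x w : V}
    (hw : IsUp G o x w) (P : V → V → Prop) (hP : ∀ y, P x y → F1tok G o x)
    (hP1 : ∀ y y', P x y → P x y' → y = y') (A : Finset V)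
    (hA : ∀ y ∈ A, (y = w ∧ (Sx G o w).card = 4) ∨ (y ≠ x ∧ IsUp G o y w) ∨ P x y) : A.card ≤ 2 := by
  classical
  by_cases hF : F1tok G o x
  · have hs : ∀ y, IsUp G o y w → y = x := by
      rcases hF with ⟨w', h1, h2, h3⟩ | ⟨w', h1, h2, h3⟩
      · have h4 : w' = w := isUp_unique h.inj h1 hw
        rw [h4] at h2
        exact h2
      · exact (h.not_both hw h1).elim
    by_cases hp : ∃ y, P x y
    · obtain ⟨y0, hy0⟩ := hp
      have h5 : A ⊆ ({w, y0} : Finset V) := by
        intro y hy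
        rcases hA y hy with h1 | h1 | h1
        · simp [h1.1]
        · exact (h1.1 (hs y h1.2)).elim
        · simp [hP1 y y0 h1 hy0]
      exact (card_le_card h5).trans card_le_two
    · have h5 : A ⊆ ({w} : Finset V) := by
        intro y hy
        rcases hA y hy with h1 | h1 | h1
        · simp [h1.1]
        · exact (h1.1 (hs y h1.2)).elim
        · exact (hp ⟨y, h1⟩).elim
      have h6 := card_le_card h5
      rw [card_singleton] at h6
      omega
  · have hxS := mem_Sx.1 hw.2.1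
    have hxP : x ∈ Px G o w := mem_Px.2 ⟨hxS.1.symm, hxS.2⟩
    have hsib : ∀ y, y ≠ x → IsUp G o y w → y ∈ (Px G o w).erase x := by
      intro y hy1 hy2
      have h1 := mem_Sx.1 hy2.2.1
      exact mem_erase.2 ⟨hy1, mem_Px.2 ⟨h1.1.symm, h1.2⟩⟩
    have hce : ((Px G o w).erase x).card = (Px G o w).card - 1 := card_erase_of_mem hxP
    by_cases h4 : (Sx G o w).card = 4
    · have h2 : (Px G o w).card ≤ 2 := by
        have := h.d6 w
        omega
      have h5 : A ⊆ insert w ((Px G o w).erase x) := by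
        intro y hy
        rcases hA y hy with h1 | h1 | h1
        · rw [h1.1]
          exact mem_insert_self _ _
        · exact mem_insert_of_mem (hsib y h1.1 h1.2)
        · exact (hF (hP y h1)).elim
      have h6 := (card_le_card h5).trans (card_insert_le _ _)
      omega
    · have h3 : (Px G o w).card ≤ 3 := h.up x w hw
      have h5 : A ⊆ (Px G o w).erase x := by
        intro y hy
        rcases hA y hy with h1 | h1 | h1
        · exact (h4 h1.2).elim
        · exact hsib y h1.1 h1.2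
        · exact (hF (hP y h1)).elim
      have h6 := card_le_card h5
      omega

private theorem Tok_F1neg {V : Type} [Fintype V] {G : SimpleGraph V} {o : V → ℤ} {v : V}
    (h : F1tok G o v) : F1tok G (fun x => - o x) v := by
  rcases h with ⟨w, h1, h2, h3⟩ | ⟨w, h1, h2, h3⟩
  · refine Or.inr ⟨w, (isDn_neg G o v w).2 h1, fun v' hv' => h2 v' ((isDn_neg G o v' w).1 hv'), ?_⟩
    rw [Sx_neg]
    exact h3
  · refine Or.inl ⟨w, (isUp_neg G o v w).2 h1, fun v' hv' => h2 v' ((isUp_neg G o v' w).1 hv'), ?_⟩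
    rw [Px_neg]
    exact h3

/-- The earlier neighbours of a down token. -/
private theorem Tok_cntd {V : Type} [Fintype V] {G : SimpleGraph V} {o : V → ℤ} (h : Good G o) {x w : V}
    (hw : IsDn G o x w) (P : V → V → Prop) (hP : ∀ y, P x y → F1tok G o x)
    (hP1 : ∀ y y', P x y → P x y' → y = y') (A : Finset V)
    (hA : ∀ y ∈ A, (y = w ∧ (Px G o w).card = 4) ∨ (y ≠ x ∧ IsDn G o y w) ∨ P x y) : A.card ≤ 2 := by
  refine Tok_cnt h.neg ((isUp_neg G o x w).2 hw) P (fun y hy => Tok_F1neg (hP y hy)) hP1 A ?_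
  intro y hy
  rcases hA y hy with h1 | h1 | h1
  · refine Or.inl ⟨h1.1, ?_⟩
    rw [Sx_neg]
    exact h1.2
  · exact Or.inr (Or.inl ⟨h1.1, (isUp_neg G o y w).2 h1.2⟩)
  · exact Or.inr (Or.inr h1)

private theorem Tok_isUp_ne {V : Type} [Fintype V] {G : SimpleGraph V} {o : V → ℤ} {x y : V}
    (h : IsUp G o x y) : x ≠ y := by
  have h1 := (mem_Sx.1 h.2.1).2
  intro h2
  rw [h2] at h1
  omega

private theorem Tok_isDn_ne {V : Type} [Fintype V] {G : SimpleGraph V} {o : V → ℤ} {x y : V}
    (h : IsDn G o x y) : x ≠ y := by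
  have h1 := (mem_Px.1 h.2.1).2
  intro h2
  rw [h2] at h1
  omega

theorem exists_tok {V : Type} [Fintype V] {G : SimpleGraph V} {o : V → ℤ} (h : Good G o) {κ : Type} (cl : V → κ) :
    ∃ c : V → Fin 3, TokCol G o c ∧
      ∀ v v', F1tok G o v → F1tok G o v' → v ≠ v' → cl v = cl v' →
        ∃ z z', F1tok G o z ∧ F1tok G o z' ∧ cl z = cl v ∧ cl z' = cl v ∧ c z ≠ c z' := by
  classical
  obtain ⟨P, hPs, hPF, hP1, hPe⟩ := Tok_pair (F1tok G o) cl
  obtain ⟨K, hK⟩ : ∃ K : ℤ, ∀ x, |o x| < K := by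
    refine ⟨∑ x, |o x| + 1, fun x => ?_⟩
    have h1 : |o x| ≤ ∑ x, |o x| :=
      single_le_sum (f := fun x => |o x|) (fun i _ => abs_nonneg (o i)) (mem_univ x)
    omega
  have hK1 : ∀ x, o x < K ∧ - o x < K := by
    intro x
    have h1 := hK x
    have h2 := le_abs_self (o x)
    have h3 := neg_le_abs (o x)
    constructor <;> omega
  let ρ : V → ℤ := fun v => if (Sx G o v).card = 4 then - o v - K else o v + K
  have hρu : ∀ v, (Sx G o v).card = 4 → ρ v = - o v - K := fun v hv => if_pos hv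
  have hρd : ∀ v, (Sx G o v).card ≠ 4 → ρ v = o v + K := fun v hv => if_neg hv
  have hρi : ∀ x y, x ≠ y → ρ x ≠ ρ y := by
    intro x y hxy he
    have h0 : o x ≠ o y := fun h1 => hxy (h.inj h1)
    have h1 := hK1 x
    have h2 := hK1 y
    by_cases hx : (Sx G o x).card = 4 <;> by_cases hy : (Sx G o y).card = 4
    · rw [hρu x hx, hρu y hy] at he
      omega
    · rw [hρu x hx, hρd y hy] at he
      omega
    · rw [hρd x hx, hρu y hy] at he
      omega
    · rw [hρd x hx, hρd y hy] at he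
      omega
  let R : V → V → Prop := fun v y =>
    (IsUp G o v y ∧ (Sx G o y).card = 4) ∨ (IsUp G o y v ∧ (Sx G o v).card = 4) ∨
    (IsDn G o v y ∧ (Px G o y).card = 4) ∨ (IsDn G o y v ∧ (Px G o v).card = 4) ∨
    (v ≠ y ∧ ∃ w, IsUp G o v w ∧ IsUp G o y w) ∨ (v ≠ y ∧ ∃ w, IsDn G o v w ∧ IsDn G o y w) ∨ P v y
  have hRs : ∀ x y, R x y → R y x := by
    rintro x y (h1 | h1 | h1 | h1 | ⟨h1, w, h2, h3⟩ | ⟨h1, w, h2, h3⟩ | h1)
    · exact Or.inr (Or.inl h1)
    · exact Or.inl h1
    · exact Or.inr (Or.inr (Or.inr (Or.inl h1)))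
    · exact Or.inr (Or.inr (Or.inl h1))
    · exact Or.inr (Or.inr (Or.inr (Or.inr (Or.inl ⟨h1.symm, w, h3, h2⟩))))
    · exact Or.inr (Or.inr (Or.inr (Or.inr (Or.inr (Or.inl ⟨h1.symm, w, h3, h2⟩)))))
    · exact Or.inr (Or.inr (Or.inr (Or.inr (Or.inr (Or.inr (hPs x y h1))))))
  have hRi : ∀ x y, R x y → ρ x ≠ ρ y := by
    rintro x y (h1 | h1 | h1 | h1 | ⟨h1, w, h2, h3⟩ | ⟨h1, w, h2, h3⟩ | h1)
    · exact hρi x y (Tok_isUp_ne h1.1)
    · exact hρi x y (Tok_isUp_ne h1.1).symm
    · exact hρi x y (Tok_isDn_ne h1.1)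
    · exact hρi x y (Tok_isDn_ne h1.1).symm
    · exact hρi x y h1
    · exact hρi x y h1
    · exact hρi x y (hPF x y h1).2.2.1
  have hR2 : ∀ x, (univ.filter fun y => R x y ∧ ρ y < ρ x).card ≤ 2 := by
    intro x
    by_cases hx : (Sx G o x).card = 4
    · obtain ⟨w, hw⟩ := exists_isUp hx
      refine Tok_cnt h hw P (fun y hy => (hPF x y hy).1) (hP1 x) _ ?_
      intro y hy
      obtain ⟨hr, hlt⟩ := (mem_filter.1 hy).2
      have hpx : (Px G o x).card ≠ 4 := by
        have := h.d6 x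
        omega
      rcases hr with h1 | h1 | h1 | h1 | ⟨h1, w', h2, h3⟩ | ⟨h1, w', h2, h3⟩ | h1
      · have h4 : y = w := isUp_unique h.inj h1.1 hw
        exact Or.inl ⟨h4, h4 ▸ h1.2⟩
      · exfalso
        have h4 := (mem_Sx.1 h1.1.2.1).2
        rw [hρu x hx, hρu y h1.1.1] at hlt
        omega
      · exact (hpx h1.1.1).elim
      · exact (hpx h1.2).elim
      · have h4 : w' = w := isUp_unique h.inj h2 hw
        exact Or.inr (Or.inl ⟨h1.symm, h4 ▸ h3⟩)
      · exact (hpx h2.1).elim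
      · exact Or.inr (Or.inr h1)
    · by_cases hd : (Px G o x).card = 4
      · obtain ⟨w, hw⟩ := exists_isDn hd
        refine Tok_cntd h hw P (fun y hy => (hPF x y hy).1) (hP1 x) _ ?_
        intro y hy
        obtain ⟨hr, hlt⟩ := (mem_filter.1 hy).2
        rcases hr with h1 | h1 | h1 | h1 | ⟨h1, w', h2, h3⟩ | ⟨h1, w', h2, h3⟩ | h1
        · exact (hx h1.1.1).elim
        · exact (hx h1.2).elim
        · have h4 : y = w := isDn_unique h.inj h1.1 hw
          exact Or.inl ⟨h4, h4 ▸ h1.2⟩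
        · exfalso
          have h4 := (mem_Px.1 h1.1.2.1).2
          have h5 : (Sx G o y).card ≠ 4 := by
            have h6 := h.d6 y
            have h7 := h1.1.1
            omega
          rw [hρd x hx, hρd y h5] at hlt
          omega
        · exact (hx h2.1).elim
        · have h4 : w' = w := isDn_unique h.inj h2 hw
          exact Or.inr (Or.inl ⟨h1.symm, h4 ▸ h3⟩)
        · exact Or.inr (Or.inr h1)
      · have h5 : (univ.filter fun y => R x y ∧ ρ y < ρ x) ⊆ (∅ : Finset V) := by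
          intro y hy
          exfalso
          obtain ⟨hr, hlt⟩ := (mem_filter.1 hy).2
          rcases hr with h1 | h1 | h1 | h1 | ⟨h1, w', h2, h3⟩ | ⟨h1, w', h2, h3⟩ | h1
          · exact hx h1.1.1
          · exact hx h1.2
          · exact hd h1.1.1
          · exact hd h1.2
          · exact hx h2.1
          · exact hd h2.1
          · rcases (hPF x y h1).1 with ⟨w, h2, _⟩ | ⟨w, h2, _⟩
            · exact hx h2.1
            · exact hd h2.1
        have h6 := card_le_card h5
        rw [card_empty] at h6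
        omega
  obtain ⟨c, hc⟩ := greedy ρ R hRs hRi (by
    intro x
    have h1 := hR2 x
    convert h1)
  refine ⟨c, ⟨?_, ?_, ?_, ?_⟩, ?_⟩
  · intro v w h1 h2
    exact hc v w (Or.inl ⟨h1, h2⟩)
  · intro v w h1 h2
    exact hc v w (Or.inr (Or.inr (Or.inl ⟨h1, h2⟩)))
  · intro v v' w h1 h2 h3
    exact hc v v' (Or.inr (Or.inr (Or.inr (Or.inr (Or.inl ⟨h3, w, h1, h2⟩)))))
  · intro v v' w h1 h2 h3
    exact hc v v' (Or.inr (Or.inr (Or.inr (Or.inr (Or.inr (Or.inl ⟨h3, w, h1, h2⟩))))))
  · intro v v' h1 h2 h3 h4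
    obtain ⟨z, z', hz, hzc⟩ := hPe v v' h1 h2 h3 h4
    have h5 := hPF z z' hz
    refine ⟨z, z', h5.1, h5.2.1, hzc, h5.2.2.2 ▸ hzc, ?_⟩
    exact hc z z' (Or.inr (Or.inr (Or.inr (Or.inr (Or.inr (Or.inr hz))))))

end Pool.Agent.FF
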